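import Pool.Agent.Q42.PP.Osc

/-!
# Major and minor leading coefficients
-/

set_option autoImplicit false

namespace Pool.Agent.Q42.PP

open Finset Polynomial
open Pool.Agent.Helper602.MK (ee)
open Pool.Agent.Helper602.MK.N_J5b (ee_eq ee_add ee_zero ee_conj norm_ee ee_int ee_nat_mul)

lemma comp_lin (P : ℝ[X]) (d : ℕ) (hP : P.natDegree ≤ d) (a b : ℝ) :
    (P.comp (C a * X + C b)).natDegree ≤ d ∧ (P.comp (C a * X + C b)).coeff d = P.coeff d * a ^ d := by
  have h1 : (C a * X + C b).natDegree ≤ 1 := natDegree_linear_le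
  constructor
  · refine natDegree_comp_le.trans ?_
    calc P.natDegree * (C a * X + C b).natDegree ≤ d * 1 := Nat.mul_le_mul hP h1
      _ = d := mul_one d
  · have h2 : P.comp (C a * X + C b) = ∑ i ∈ range (d + 1), C (P.coeff i) * (C a * X + C b) ^ i := by
      unfold Polynomial.comp
      exact eval₂_eq_sum_range' C (Nat.lt_succ_of_le hP) _
    rw [h2, finsetSum_coeff, sum_range_succ]
    have h3 : ∀ i ∈ range d, (C (P.coeff i) * (C a * X + C b) ^ i).coeff d = 0 := by
      intro i hi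
      rw [mem_range] at hi
      have h5 : ((C a * X + C b) ^ i).natDegree < d := by
        calc ((C a * X + C b) ^ i).natDegree ≤ i * (C a * X + C b).natDegree := natDegree_pow_le
          _ ≤ i * 1 := Nat.mul_le_mul_left _ h1
          _ < d := by omega
      rw [coeff_C_mul, coeff_eq_zero_of_natDegree_lt h5, mul_zero]
    rw [sum_eq_zero h3, zero_add, coeff_C_mul]
    congr 1
    have h4 := coeff_pow_of_natDegree_le (p := C a * X + C b) (n := 1) (m := d) h1
    rw [mul_one] at h4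
    rw [h4]
    simp

/-- reindexing of a residue class -/
lemma sum_class {E : Type*} [AddCommMonoid E] (F : ℕ → E) (L q s : ℕ) (hs : s < q) :
    ∑ h ∈ (range L).filter (fun h => h % q = s), F h = ∑ m ∈ range ((L + q - 1 - s) / q), F (s + q * m) := by
  have hq : 0 < q := by omega
  symm
  refine sum_nbij' (fun m => s + q * m) (fun h => h / q) ?_ ?_ ?_ ?_ ?_
  · intro m hm
    rw [mem_range, Nat.lt_div_iff_mul_lt hq] at hm
    rw [mem_filter, mem_range]
    constructor
    · have : m * q = q * m := mul_comm _ _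
      omega
    · rw [Nat.add_mul_mod_self_left, Nat.mod_eq_of_lt hs]
  · intro h hh
    rw [mem_filter, mem_range] at hh
    rw [mem_range, Nat.lt_div_iff_mul_lt hq]
    have h1 := Nat.div_add_mod h q
    have h2 : h / q * q = q * (h / q) := mul_comm _ _
    omega
  · intro m _
    show (s + q * m) / q = m
    rw [Nat.add_mul_div_left _ _ hq, Nat.div_eq_of_lt hs, zero_add]
  · intro h hh
    rw [mem_filter, mem_range] at hh
    show s + q * (h / q) = h
    have h1 := Nat.div_add_mod h q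
    omega
  · intro m _
    rfl

/-- either all relevant exponential sums are small, or the leading coefficient is near a rational number with small
denominator -/
theorem dich (d : ℕ) (hd : 1 ≤ d) (q K : ℕ) (hq : 1 ≤ q) (δ : ℝ) (hδ : 0 < δ) :
    ∃ Q : ℕ, ∃ B : ℝ, 0 ≤ B ∧ ∀ L : ℕ, 1 ≤ L → ∀ P : ℝ[X], P.natDegree ≤ d →
      (∀ k ∈ Icc 1 K, ∀ s < q, ‖∑ h ∈ (range L).filter (fun h => h % q = s), ee (k * P.eval (h : ℝ))‖ ≤ δ * L) ∨
      ∃ q₂ : ℕ, 1 ≤ q₂ ∧ q₂ ≤ Q ∧ ∃ z : ℤ, |q₂ * P.coeff d - z| ≤ B / (L : ℝ) ^ d := by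
  obtain ⟨c, m, hc, hW⟩ := Pool.Agent.Q51.MD.weyl_inv d hd
  set u : ℝ := 1 / δ + 1 with hu
  have hu1 : 1 ≤ u := by
    have : 0 < 1 / δ := by positivity
    linarith
  refine ⟨⌈(c : ℝ) * u ^ m⌉₊ * (K * q ^ d), c * u ^ m, by positivity, fun L hL P hP => ?_⟩
  by_contra hno
  push Not at hno
  obtain ⟨⟨k, hk, s, hs, hbig⟩, hno2⟩ := hno
  rw [mem_Icc] at hk
  have hL0 : (0 : ℝ) < L := by exact_mod_cast hL
  set G : ℝ[X] := C (k : ℝ) * P.comp (C (q : ℝ) * X + C ((s : ℝ) - q)) with hG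
  obtain ⟨g1, g2⟩ := comp_lin P d hP (q : ℝ) ((s : ℝ) - q)
  have hGd : G.natDegree ≤ d := (natDegree_C_mul_le _ _).trans g1
  have hGc : G.coeff d = k * (P.coeff d * (q : ℝ) ^ d) := by rw [hG, coeff_C_mul, g2]
  set M : ℕ := (L + q - 1 - s) / q with hM
  have hML : M ≤ L := by
    rw [hM]
    apply Nat.div_le_of_le_mul
    have : L + (q - 1) ≤ q * L := by
      obtain ⟨q', rfl⟩ : ∃ q', q = q' + 1 := ⟨q - 1, by omega⟩
      have : (q' + 1) * L = q' * L + L := by ring
      have h2 : q' ≤ q' * L := Nat.le_mul_of_pos_right _ (by omega)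
      omega
    omega
  have hsum : ∑ h ∈ (range L).filter (fun h => h % q = s), ee (k * P.eval (h : ℝ)) =
      ∑ n ∈ Ioc 0 M, ee (G.eval (n : ℝ)) := by
    rw [sum_class _ L q s hs]
    have e0 : Ioc 0 M = Ico 1 (M + 1) := by
      ext x; simp only [mem_Ioc, mem_Ico]; omega
    rw [e0, sum_Ico_eq_sum_range, Nat.add_sub_cancel]
    apply sum_congr rfl
    intro n _
    rw [hG, eval_mul, eval_C, eval_comp]
    congr 2
    simp only [eval_add, eval_mul, eval_C, eval_X]
    push_cast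
    ring_nf
  rw [hsum] at hbig
  have h1 := hW 0 M L u G hL0 (by rw [Nat.sub_zero]; exact_mod_cast hML) hu1 hGd (by
    have h2 : (L : ℝ) ≤ (1 / δ) * ‖∑ n ∈ Ioc 0 M, ee (G.eval (n : ℝ))‖ := by
      rw [div_mul_eq_mul_div, one_mul, le_div_iff₀ hδ]
      linarith
    refine h2.trans (mul_le_mul_of_nonneg_right ?_ (norm_nonneg _))
    linarith)
  obtain ⟨q', hq1, hq2, z, hz⟩ := h1
  refine absurd (hno2 (q' * (k * q ^ d)) ?_ ?_ z) (not_lt.2 ?_)
  · exact Nat.one_le_iff_ne_zero.2 (by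
      have : q ^ d ≠ 0 := pow_ne_zero _ (by omega)
      have h3 : k ≠ 0 := by omega
      have h4 : q' ≠ 0 := by omega
      exact mul_ne_zero h4 (mul_ne_zero h3 this))
  · apply Nat.mul_le_mul
    · have : (q' : ℝ) ≤ (⌈(c : ℝ) * u ^ m⌉₊ : ℝ) := hq2.trans (Nat.le_ceil _)
      exact_mod_cast this
    · exact Nat.mul_le_mul_right _ hk.2
  · rw [hGc] at hz
    refine le_trans (le_of_eq ?_) hz
    congr 1
    push_cast
    ring

end Pool.Agent.Q42.PP
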