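import Pool.Agent.Q42.PP.Inp

/-!
# Assembly
-/

set_option autoImplicit false

namespace Pool.Agent.Q42.PP

open Finset Polynomial
open Pool.Agent.Helper602.MK (ee)
open Pool.Agent.Helper602.MK.N_J5b (ee_eq ee_add ee_zero ee_conj norm_ee ee_int ee_nat_mul)
open Pool.Agent.TH823.MRS (ExpoSmall liR_E mu_E)
open Pool.Agent.Q42.RS (mu mu_abs)

/-- the Liouville function, real valued -/
noncomputable def liou (n : ℕ) : ℝ := (-1) ^ (ArithmeticFunction.cardFactors n)

/-- data for a function: small averages over short progressions and periodic majorants of density `ρ` -/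
def Data (u : ℕ → ℝ) (ρ : ℝ) : Prop := MRAP u ∧ ∀ ε : ℝ, 0 < ε → ∃ W : ℕ, 1 ≤ W ∧ ∃ v : ℕ → ℝ, (∀ n, |u n| ≤ v n) ∧
  (∀ n, v n ≤ 1) ∧ (∀ n, v (n + W) = v n) ∧ ∑ r ∈ range W, v r ≤ (ρ + ε) * W

lemma data_liou : Data liou 1 := by
  constructor
  · apply mrap_of
    have h := liR_E
    have h1 : Pool.Agent.H373R2.T7.liR = (fun n => ((liou n : ℝ) : ℂ)) := by
      funext n
      unfold liou Pool.Agent.H373R2.T7.liR
      push_cast
      rfl
    rw [← h1]
    exact h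
  · intro ε hε
    refine ⟨1, le_rfl, fun _ => 1, fun n => ?_, fun _ => le_rfl, fun _ => rfl, ?_⟩
    · unfold liou
      rw [abs_pow, abs_neg, abs_one, one_pow]
    · simp
      exact hε.le

lemma data_mu : Data mu (6 / Real.pi ^ 2) := by
  constructor
  · apply mrap_of
    have h := mu_E
    have h1 : (fun n => ((ArithmeticFunction.moebius n : ℤ) : ℂ)) = (fun n => ((mu n : ℝ) : ℂ)) := by
      funext n
      unfold mu
      push_cast
      rfl
    rw [← h1]
    exact h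
  · exact maj_mu

lemma bdd_per (g : ℝ → ℂ) (hg : Continuous g) (hp : Function.Periodic g 1) : ∃ F : ℝ, ∀ x, ‖g x‖ ≤ F := by
  obtain ⟨F, hF⟩ := isCompact_Icc.exists_bound_of_continuousOn (s := Set.Icc (0 : ℝ) 1) hg.continuousOn
  refine ⟨F, fun x => ?_⟩
  have h1 : g x = g (Int.fract x) := by
    have := hp.int_mul ⌊x⌋ (Int.fract x)
    rw [mul_one, Int.fract_add_floor] at this
    exact this
  rw [h1]
  exact hF _ ⟨Int.fract_nonneg x, (Int.fract_lt_one x).le⟩

/-- the constant -/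
noncomputable def cst (g : ℝ → ℂ) : ℝ := ⨆ t : ℝ, ∫ x in (0 : ℝ)..1, gd g t x

lemma cst_le (g : ℝ → ℂ) (F : ℝ) (hF : ∀ x, ‖g x‖ ≤ F) (t : ℝ) :
    ∫ x in (0 : ℝ)..1, gd g t x ≤ cst g := by
  apply le_ciSup (f := fun t => ∫ x in (0 : ℝ)..1, gd g t x)
  refine ⟨F, ?_⟩
  rintro _ ⟨t, rfl⟩
  have h1 := intervalIntegral.norm_integral_le_of_norm_le_const (a := (0 : ℝ)) (b := 1) (C := F) (f := fun x => gd g t x) (by
    intro x _
    unfold gd
    rw [Real.norm_eq_abs, abs_abs]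
    refine (Complex.abs_re_le_norm _).trans ?_
    rw [norm_mul, norm_ee, one_mul]
    exact hF x)
  simp only [sub_zero, abs_one, mul_one] at h1
  exact (le_abs_self _).trans h1

lemma cst_nonneg (g : ℝ → ℂ) : 0 ≤ cst g := by
  unfold cst
  apply Real.iSup_nonneg
  intro t
  exact intervalIntegral.integral_nonneg zero_le_one fun x _ => abs_nonneg _

lemma lsup_bdd (u : ℕ → ℝ) (hu : ∀ n, |u n| ≤ 1) (g : ℝ → ℂ) (F : ℝ) (hF : ∀ x, ‖g x‖ ≤ F) (d H n : ℕ) :
    BddAbove (Set.range fun P : {P : ℝ[X] // P.natDegree ≤ d} => ‖∑ h ∈ Icc 1 H, (u (n + h) : ℂ) * g (P.1.eval (h : ℝ))‖) := by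
  have hF0 : 0 ≤ F := (norm_nonneg _).trans (hF 0)
  refine ⟨H * F, ?_⟩
  rintro _ ⟨P, rfl⟩
  refine (norm_sum_le _ _).trans ?_
  calc _ ≤ ∑ h ∈ Icc 1 H, F := by
        apply sum_le_sum
        intro h _
        rw [norm_mul, Complex.norm_real, Real.norm_eq_abs]
        calc _ ≤ 1 * F := mul_le_mul (hu _) (hF _) (norm_nonneg _) zero_le_one
          _ = F := one_mul _
    _ = _ := by rw [sum_const, Nat.card_Icc, Nat.add_sub_cancel, nsmul_eq_mul]

lemma lsup_nonneg (u : ℕ → ℝ) (g : ℝ → ℂ) (d H n : ℕ) : 0 ≤ lsup u g d H n := by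
  unfold lsup
  exact Real.iSup_nonneg fun P => norm_nonneg _

lemma lsup_split (u : ℕ → ℝ) (hu : ∀ n, |u n| ≤ 1) (f : ℝ → ℂ) (m : ℂ) (F : ℝ) (hF : ∀ x, ‖f x - m‖ ≤ F) (d H n : ℕ) :
    lsup u f d H n ≤ lsup u (fun x => f x - m) d H n + ‖m‖ * lsup u (fun _ => 1) 0 H n := by
  have : Nonempty {P : ℝ[X] // P.natDegree ≤ d} := ⟨⟨0, by simp⟩⟩
  unfold lsup
  apply ciSup_le
  intro P
  have h1 : ∑ h ∈ Icc 1 H, (u (n + h) : ℂ) * f (P.1.eval (h : ℝ)) =
      ∑ h ∈ Icc 1 H, (u (n + h) : ℂ) * (f (P.1.eval (h : ℝ)) - m) + m * ∑ h ∈ Icc 1 H, (u (n + h) : ℂ) * 1 := by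
    rw [mul_sum, ← sum_add_distrib]
    apply sum_congr rfl
    intro h _
    ring
  rw [h1]
  refine (norm_add_le _ _).trans ?_
  rw [norm_mul]
  apply add_le_add
  · exact le_ciSup (lsup_bdd u hu (fun x => f x - m) F hF d H n) P
  · apply mul_le_mul_of_nonneg_left _ (norm_nonneg _)
    exact le_ciSup (lsup_bdd u hu (fun _ => (1 : ℂ)) 1 (fun _ => by simp) 0 H n) ⟨0, by simp⟩

/-- the main estimate -/
theorem main (u : ℕ → ℝ) (ρ : ℝ) (hD : Data u ρ) (hu : ∀ n, |u n| ≤ 1) (d : ℕ) (f : ℝ → ℂ) (hf : Continuous f)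
    (hp : Function.Periodic f 1) (m : ℂ) (ε : ℝ) (hε : 0 < ε) : ∃ H₀ : ℕ, ∀ H : ℕ, H₀ ≤ H → ∀ N : ℕ,
      ∑ n ∈ Icc 1 N, lsup u f d H n ≤ (ρ * cst (fun x => f x - m) + ε) * H * N := by
  set g : ℝ → ℂ := fun x => f x - m with hg
  have hgc : Continuous g := hf.sub continuous_const
  have hgp : Function.Periodic g 1 := fun x => by rw [hg]; simp only [hp x]
  obtain ⟨F, hF⟩ := bdd_per g hgc hgp
  set c := cst g with hc
  have hc0 : 0 ≤ c := cst_nonneg g
  obtain ⟨hM, hmaj⟩ := hD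
  obtain ⟨W, hW, v, huv, hv1, hvW, hρ⟩ := hmaj (ε / (4 * (c + 1))) (by positivity)
  obtain ⟨H₁, h1⟩ := average u v g F c W huv hv1 hvW hW hF hc0 (ρ + ε / (4 * (c + 1))) hρ d
    (all_degrees u v g F c W huv hv1 hvW hgc hgp hF hc0 (cst_le g F hF) hM d) (ε / 4) (by positivity)
  obtain ⟨H₂, h2⟩ := average u v (fun _ => (1 : ℂ)) 1 0 W huv hv1 hvW hW (fun _ => by simp) le_rfl (ρ + ε / (4 * (c + 1))) hρ 0
    (base u v (fun _ => (1 : ℂ)) 1 0 W huv (fun _ => by simp) le_rfl hM) (ε / (4 * (‖m‖ + 1))) (by positivity)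
  refine ⟨H₁ + H₂, fun H hH N => ?_⟩
  have a1 := h1 H (by omega) N
  have a2 := h2 H (by omega) N
  calc ∑ n ∈ Icc 1 N, lsup u f d H n ≤ ∑ n ∈ Icc 1 N, (lsup u g d H n + ‖m‖ * lsup u (fun _ => 1) 0 H n) :=
        sum_le_sum fun n _ => lsup_split u hu f m F hF d H n
    _ = ∑ n ∈ Icc 1 N, lsup u g d H n + ‖m‖ * ∑ n ∈ Icc 1 N, lsup u (fun _ => 1) 0 H n := by
        rw [sum_add_distrib, mul_sum]
    _ ≤ (c * (ρ + ε / (4 * (c + 1))) + ε / 4) * H * N + ‖m‖ * ((0 * (ρ + ε / (4 * (c + 1))) + ε / (4 * (‖m‖ + 1))) * H * N) :=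
        add_le_add a1 (mul_le_mul_of_nonneg_left a2 (norm_nonneg _))
    _ = (ρ * c + (c / (c + 1)) * (ε / 4) + ε / 4 + (‖m‖ / (‖m‖ + 1)) * (ε / 4)) * (H * N) := by
        field_simp
        ring
    _ ≤ (ρ * c + 1 * (ε / 4) + ε / 4 + 1 * (ε / 4)) * (H * N) := by
        have e1 : c / (c + 1) ≤ 1 := by
          rw [div_le_one (by positivity)]
          linarith
        have e2 : ‖m‖ / (‖m‖ + 1) ≤ 1 := by
          rw [div_le_one (by positivity)]
          linarith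
        gcongr
    _ ≤ (ρ * c + ε) * (H * N) := by
        apply mul_le_mul_of_nonneg_right _ (by positivity)
        linarith
    _ = _ := by ring

/-- with logarithmic averages -/
theorem main_log (u : ℕ → ℝ) (ρ : ℝ) (hρ : 0 ≤ ρ) (hD : Data u ρ) (hu : ∀ n, |u n| ≤ 1) (d : ℕ) (f : ℝ → ℂ) (hf : Continuous f)
    (hp : Function.Periodic f 1) (m : ℂ) (ε : ℝ) (hε : 0 < ε) : ∃ H₀ : ℕ, ∀ H : ℕ, H₀ ≤ H →
      (∀ N : ℕ, ∑ n ∈ Icc 1 N, lsup u f d H n ≤ (ρ * cst (fun x => f x - m) + ε) * H * N) ∧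
      (∀ N : ℕ, H ≤ N → ∑ n ∈ Icc 1 N, lsup u f d H n / n ≤ (ρ * cst (fun x => f x - m) + ε) * H * Real.log N) := by
  obtain ⟨H₁, h1⟩ := main u ρ hD hu d f hf hp m (ε / 2) (by positivity)
  set c := cst (fun x => f x - m) with hc
  have hc0 : 0 ≤ c := cst_nonneg _
  set κ := ρ * c + ε / 2 with hκ
  have hκ0 : 0 < κ := by positivity
  obtain ⟨H₂, h2⟩ := exists_nat_ge (Real.exp (2 * κ / ε))
  refine ⟨H₁ + H₂ + 1, fun H hH => ⟨fun N => ?_, fun N hN => ?_⟩⟩
  · refine (h1 H (by omega) N).trans ?_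
    have : (0 : ℝ) ≤ H * N := by positivity
    rw [mul_assoc, mul_assoc]
    apply mul_le_mul_of_nonneg_right _ this
    linarith
  · have h3 := log_average (fun n => lsup u f d H n) (κ * H) (by positivity) (fun N => h1 H (by omega) N) N (by omega)
    refine h3.trans ?_
    have h4 : 2 * κ / ε ≤ Real.log N := by
      rw [Real.le_log_iff_exp_le (by exact_mod_cast (by omega : 0 < N))]
      exact h2.trans (by exact_mod_cast (by omega : H₂ ≤ N))
    rw [div_le_iff₀ hε] at h4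
    have h5 : (0 : ℝ) ≤ H := Nat.cast_nonneg _
    have h6 : κ * (1 + Real.log N) ≤ (ρ * c + ε) * Real.log N := by
      have : (ρ * c + ε) * Real.log N = κ * Real.log N + ε / 2 * Real.log N := by rw [hκ]; ring
      rw [this]
      linarith
    calc κ * H * (1 + Real.log N) = H * (κ * (1 + Real.log N)) := by ring
      _ ≤ H * ((ρ * c + ε) * Real.log N) := mul_le_mul_of_nonneg_left h6 h5
      _ = _ := by ring

lemma int_abs_cos (a : ℝ) : ∫ y in a..(a + 2 * Real.pi), |Real.cos y| = 4 := by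
  have hper : Function.Periodic (fun y => |Real.cos y|) Real.pi := by
    intro y
    simp only [Real.cos_add_pi, abs_neg]
  have hint : ∀ a b : ℝ, IntervalIntegrable (fun y => |Real.cos y|) MeasureTheory.volume a b :=
    fun a b => (Real.continuous_cos.abs).intervalIntegrable a b
  have h0 : ∫ y in (-(Real.pi / 2))..(Real.pi / 2), |Real.cos y| = 2 := by
    have h1 : ∫ y in (-(Real.pi / 2))..(Real.pi / 2), |Real.cos y| = ∫ y in (-(Real.pi / 2))..(Real.pi / 2), Real.cos y := by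
      apply intervalIntegral.integral_congr
      intro y hy
      rw [Set.uIcc_of_le (by have := Real.pi_pos; linarith)] at hy
      exact abs_of_nonneg (Real.cos_nonneg_of_mem_Icc hy)
    rw [h1, integral_cos, Real.sin_neg, Real.sin_pi_div_two]
    norm_num
  have h1 : ∀ b : ℝ, ∫ y in b..(b + Real.pi), |Real.cos y| = 2 := by
    intro b
    rw [hper.intervalIntegral_add_eq b (-(Real.pi / 2))]
    have : -(Real.pi / 2) + Real.pi = Real.pi / 2 := by ring
    rw [this, h0]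
  have h2 : a + 2 * Real.pi = (a + Real.pi) + Real.pi := by ring
  rw [h2, ← intervalIntegral.integral_add_adjacent_intervals (hint a (a + Real.pi)) (hint _ _), h1, h1]
  norm_num

/-- the constant for the exponential function -/
theorem cst_ee : cst ee = 2 / Real.pi := by
  have h1 : ∀ t : ℝ, ∫ x in (0 : ℝ)..1, gd ee t x = 2 / Real.pi := by
    intro t
    have h2 : ∀ x : ℝ, gd ee t x = |Real.cos ((2 * Real.pi) * x + 2 * Real.pi * t)| := by
      intro x
      unfold gd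
      rw [← ee_add, ee_eq, Complex.exp_ofReal_mul_I_re]
      congr 2
      ring
    simp only [h2]
    rw [intervalIntegral.integral_comp_mul_add (fun y => |Real.cos y|) (by positivity) (2 * Real.pi * t)]
    have h3 : 2 * Real.pi * 0 + 2 * Real.pi * t = 2 * Real.pi * t := by ring
    have h4 : 2 * Real.pi * 1 + 2 * Real.pi * t = 2 * Real.pi * t + 2 * Real.pi := by ring
    rw [h3, h4, int_abs_cos, smul_eq_mul]
    have := Real.pi_pos
    field_simp
    norm_num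
  unfold cst
  simp only [h1]
  exact ciSup_const

end Pool.Agent.Q42.PP
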