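import Pool.Agent.Q42.PP.Step

/-!
# The induction step
-/

set_option autoImplicit false

namespace Pool.Agent.Q42.PP

open Finset Polynomial
open Pool.Agent.Helper602.MK (ee)
open Pool.Agent.Helper602.MK.N_J5b (ee_eq ee_add ee_zero ee_conj norm_ee ee_int ee_nat_mul)

lemma sum_blocks {E : Type*} [AddCommMonoid E] (b : ℕ → E) (l J : ℕ) :
    ∑ h ∈ range (J * l), b h = ∑ j ∈ range J, ∑ t ∈ range l, b (j * l + t) := by
  induction J with
  | zero => simp
  | succ J ih =>
    rw [sum_range_succ, ← ih, Nat.succ_mul, sum_range_add]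

lemma sum_res {E : Type*} [AddCommMonoid E] (b : ℕ → E) (l q : ℕ) (hq : 1 ≤ q) :
    ∑ t ∈ range l, b t = ∑ s ∈ range q, ∑ t ∈ (range l).filter (fun t => t % q = s), b t := by
  symm
  exact sum_fiberwise_of_maps_to (fun t _ => mem_range.2 (Nat.mod_lt t hq)) b

section

variable (u v : ℕ → ℝ) (f : ℝ → ℂ) (F c : ℝ) (W : ℕ)

/-- one block in the major case -/
lemma block (huv : ∀ n, |u n| ≤ v n) (hv1 : ∀ n, v n ≤ 1) (hc0 : 0 ≤ c) (d : ℕ) (ε ε' κ : ℝ) (hε : 0 < ε) (hε' : 0 < ε')
    (huc : ∀ (x y : ℝ) (z : ℤ), |x - y - z| ≤ κ → ‖f x - f y‖ ≤ ε)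
    (P : ℝ[X]) (hP : P.natDegree ≤ d + 1) (L J l q qs q₂ : ℕ) (B : ℝ) (hB : 0 ≤ B) (hκ : 0 < κ)
    (hJ1 : 1 ≤ J) (hJ : B * (d + 1) ≤ κ * J) (hl : J * l ≤ L) (hL : 1 ≤ L) (hq2 : 1 ≤ q₂) (hdv : q₂ ∣ qs) (hqs : 1 ≤ qs)
    (hqq : q ∣ qs) (z : ℤ)
    (hz : |q₂ * P.coeff (d + 1) - z| ≤ B / (L : ℝ) ^ (d + 1)) (r n : ℕ) (j : ℕ) (hj : j < J)
    (hgood : ¬ Exc u v f c d qs l ε' (n + j * l)) :
    ‖∑ t ∈ range l, (if (j * l + t) % q = r then (u (n + (j * l + t)) : ℂ) * f (P.eval ((j * l + t : ℕ) : ℝ)) else 0)‖ ≤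
      c * ∑ t ∈ range l, (if (j * l + t) % q = r then v (n + (j * l + t)) else 0) + ε * l + qs * (ε' * l) := by
  have hv0 : ∀ n, 0 ≤ v n := fun n => (abs_nonneg _).trans (huv n)
  have key : ∀ s ∈ range qs,
      ‖∑ t ∈ (range l).filter (fun t => t % qs = s),
        (if (j * l + t) % q = r then (u (n + (j * l + t)) : ℂ) * f (P.eval ((j * l + t : ℕ) : ℝ)) else 0)‖ ≤
      (c * ∑ t ∈ (range l).filter (fun t => t % qs = s), (if (j * l + t) % q = r then v (n + (j * l + t)) else 0) +
        ∑ t ∈ (range l).filter (fun t => t % qs = s), ε) + ε' * l := by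
    intro s hs
    rw [mem_range] at hs
    have hmod : ∀ t ∈ (range l).filter (fun t => t % qs = s), (j * l + t) % q = (j * l + s) % q := by
      intro t ht
      rw [mem_filter] at ht
      have h1 : t % q = s % q := by
        rw [← ht.2, Nat.mod_mod_of_dvd _ hqq]
      rw [Nat.add_mod, h1, ← Nat.add_mod]
    by_cases hr : (j * l + s) % q = r
    · have e1 : ∑ t ∈ (range l).filter (fun t => t % qs = s),
          (if (j * l + t) % q = r then (u (n + (j * l + t)) : ℂ) * f (P.eval ((j * l + t : ℕ) : ℝ)) else 0) =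
          ∑ t ∈ (range l).filter (fun t => t % qs = s), (u (n + j * l + t) : ℂ) * f (P.eval ((j * l + t : ℕ) : ℝ)) := by
        apply sum_congr rfl
        intro t ht
        rw [if_pos ((hmod t ht).trans hr), add_assoc]
      have e2 : ∑ t ∈ (range l).filter (fun t => t % qs = s), (if (j * l + t) % q = r then v (n + (j * l + t)) else 0) =
          ∑ t ∈ (range l).filter (fun t => t % qs = s), v (n + j * l + t) := by
        apply sum_congr rfl
        intro t ht
        rw [if_pos ((hmod t ht).trans hr), add_assoc]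
      rw [e1, e2]
      obtain ⟨R, hR1, hR2⟩ := lower d P hP ((j * l : ℕ) : ℝ) (s : ℝ)
      have h3 : ‖∑ t ∈ (range l).filter (fun t => t % qs = s), (u (n + j * l + t) : ℂ) * f (R.eval (t : ℝ))‖ ≤
          c * ∑ t ∈ (range l).filter (fun t => t % qs = s), v (n + j * l + t) + ε' * l := by
        by_contra hno
        rw [not_le] at hno
        exact hgood ⟨R, hR1, s, hs, hno⟩
      have h4 : ‖∑ t ∈ (range l).filter (fun t => t % qs = s), (u (n + j * l + t) : ℂ) * f (P.eval ((j * l + t : ℕ) : ℝ)) -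
          ∑ t ∈ (range l).filter (fun t => t % qs = s), (u (n + j * l + t) : ℂ) * f (R.eval (t : ℝ))‖ ≤
          ∑ t ∈ (range l).filter (fun t => t % qs = s), ε := by
        rw [← sum_sub_distrib]
        refine (norm_sum_le _ _).trans (sum_le_sum fun t ht => ?_)
        rw [mem_filter, mem_range] at ht
        rw [← mul_sub, norm_mul, Complex.norm_real, Real.norm_eq_abs]
        obtain ⟨z', hz'⟩ := near d P hP L J l qs q₂ B κ hB hκ hJ1 hJ hl hL hq2 hdv z hz j hj t s ht.1 ht.2 R hR2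
        have h5 := huc _ _ z' hz'
        have h6 : |u (n + j * l + t)| ≤ 1 := (huv _).trans (hv1 _)
        calc |u (n + j * l + t)| * ‖f (P.eval ((j * l + t : ℕ) : ℝ)) - f (R.eval (t : ℝ))‖ ≤ 1 * ε :=
              mul_le_mul h6 h5 (norm_nonneg _) zero_le_one
          _ = ε := one_mul _
      have h5 := norm_sub_norm_le (∑ t ∈ (range l).filter (fun t => t % qs = s), (u (n + j * l + t) : ℂ) * f (P.eval ((j * l + t : ℕ) : ℝ)))
          (∑ t ∈ (range l).filter (fun t => t % qs = s), (u (n + j * l + t) : ℂ) * f (R.eval (t : ℝ)))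
      linarith
    · have e1 : ∑ t ∈ (range l).filter (fun t => t % qs = s),
          (if (j * l + t) % q = r then (u (n + (j * l + t)) : ℂ) * f (P.eval ((j * l + t : ℕ) : ℝ)) else 0) = 0 := by
        apply sum_eq_zero
        intro t ht
        rw [if_neg (fun h => hr ((hmod t ht).symm.trans h))]
      rw [e1, norm_zero]
      have e2 : 0 ≤ c * ∑ t ∈ (range l).filter (fun t => t % qs = s), (if (j * l + t) % q = r then v (n + (j * l + t)) else 0) := by
        apply mul_nonneg hc0
        apply sum_nonneg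
        intro t _
        split_ifs
        · exact hv0 _
        · exact le_rfl
      have e3 : 0 ≤ ∑ t ∈ (range l).filter (fun t => t % qs = s), ε := sum_nonneg fun _ _ => hε.le
      positivity
  rw [sum_res (fun t => (if (j * l + t) % q = r then (u (n + (j * l + t)) : ℂ) * f (P.eval ((j * l + t : ℕ) : ℝ)) else 0)) l qs hqs]
  refine (norm_sum_le _ _).trans ((sum_le_sum key).trans (le_of_eq ?_))
  rw [sum_add_distrib, sum_add_distrib, ← mul_sum, ← sum_res _ l qs hqs, ← sum_res _ l qs hqs, sum_const, sum_const,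
    card_range, card_range, nsmul_eq_mul, nsmul_eq_mul]
  ring

open scoped Classical in
/-- the induction step -/
theorem step (huv : ∀ n, |u n| ≤ v n) (hv1 : ∀ n, v n ≤ 1) (hvW : ∀ n, v (n + W) = v n)
    (hf : Continuous f) (hp : Function.Periodic f 1) (hF : ∀ x, ‖f x‖ ≤ F) (hc0 : 0 ≤ c)
    (hc : ∀ t, ∫ x in (0 : ℝ)..1, gd f t x ≤ c) (d : ℕ) (hT : Tst u v f c W d) : Tst u v f c W (d + 1) := by
  intro q hq hWq ε hε
  have hF0 : 0 ≤ F := (norm_nonneg _).trans (hF 0)
  have hv0 : ∀ n, 0 ≤ v n := fun n => (abs_nonneg _).trans (huv n)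
  obtain ⟨K, δ, hδ, hmin⟩ := minor f hf hp F hF c hc ε hε
  obtain ⟨Q, B, hB, hdich⟩ := dich (d + 1) (by omega) q K hq δ hδ
  obtain ⟨κ, hκ, huc⟩ := unif_cont f hf hp (ε / 4) (by positivity)
  obtain ⟨J, hJ1, hJ⟩ : ∃ J : ℕ, 1 ≤ J ∧ B * (d + 1) ≤ κ * J := by
    obtain ⟨J, hJ⟩ := exists_nat_ge (B * (d + 1) / κ)
    refine ⟨J + 1, by omega, ?_⟩
    rw [div_le_iff₀ hκ] at hJ
    push_cast
    nlinarith
  have hJ0 : (1 : ℝ) ≤ J := by exact_mod_cast hJ1
  obtain ⟨qs, hqsdef⟩ : ∃ qs : ℕ, qs = q * Q.factorial := ⟨_, rfl⟩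
  have hqs1 : 1 ≤ qs := by
    rw [hqsdef]
    exact Nat.mul_pos hq (Nat.factorial_pos _)
  have hqs0 : (1 : ℝ) ≤ qs := by exact_mod_cast hqs1
  have hqq : q ∣ qs := ⟨_, hqsdef⟩
  set ε' : ℝ := ε / (4 * qs * J) with hε'def
  have hε' : 0 < ε' := by positivity
  obtain ⟨L₁, hL₁⟩ := hT qs hqs1 (hWq.trans hqq) ε' hε'
  refine ⟨J * (L₁ + 1) + ⌈4 * J * F / ε⌉₊ + 1, fun L hL => ?_⟩
  have hL1 : 1 ≤ L := by omega
  have hL0 : (0 : ℝ) < L := by exact_mod_cast hL1
  obtain ⟨l, hldef⟩ : ∃ l : ℕ, l = L / J := ⟨_, rfl⟩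
  have hl : J * l ≤ L := by rw [hldef]; exact Nat.mul_div_le L J
  have hlL₁ : L₁ ≤ l := by
    rw [hldef, Nat.le_div_iff_mul_le hJ1]
    have : L₁ * J ≤ J * (L₁ + 1) := by rw [mul_comm]; exact Nat.mul_le_mul_left _ (by omega)
    omega
  have hrem : L - J * l ≤ J := by
    have := Nat.div_add_mod L J
    have h2 := Nat.mod_lt L hJ1
    rw [← hldef] at this
    omega
  have hJF : J * F ≤ ε / 4 * L := by
    have h1 : 4 * J * F / ε ≤ L := (Nat.le_ceil _).trans (by exact_mod_cast (by omega : ⌈4 * J * F / ε⌉₊ ≤ L))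
    rw [div_le_iff₀ hε] at h1
    linarith
  obtain ⟨N₁, hN₁⟩ := hL₁ l hlL₁
  refine ⟨N₁ + L, fun N hN => ?_⟩
  have key : ∀ n, Exc u v f c (d + 1) q L ε n → ∃ j < J, Exc u v f c d qs l ε' (n + j * l) := by
    intro n hn
    by_contra hno
    push Not at hno
    obtain ⟨P, hP, r, hr, hbig⟩ := hn
    refine absurd hbig (not_lt.2 ?_)
    rcases hdich L hL1 P hP with hsm | ⟨q₂, hq2, hq2Q, z, hz⟩
    · exact minor_case u v f c W huv hv1 hvW K δ ε hε hmin q L hWq P r (fun k hk => hsm k hk r hr) n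
    · have hdv : q₂ ∣ qs := by
        rw [hqsdef]
        exact Dvd.dvd.mul_left (Nat.dvd_factorial hq2 hq2Q) _
      have hblk := fun j (hj : j < J) => block u v f c huv hv1 hc0 d (ε / 4) ε' κ (by positivity) hε' huc P hP L J l q qs q₂ B
        hB hκ hJ1 hJ hl hL1 hq2 hdv hqs1 hqq z hz r n j hj (hno j hj)
      rw [sum_filter, sum_filter]
      have hsplit : ∀ {E : Type} [AddCommMonoid E] (b : ℕ → E), ∑ h ∈ range L, b h =
          ∑ h ∈ range (J * l), b h + ∑ h ∈ range (L - J * l), b (J * l + h) := by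
        intro E _ b
        rw [← sum_range_add, Nat.add_sub_cancel' hl]
      rw [hsplit, hsplit (E := ℝ), sum_blocks, sum_blocks]
      refine (norm_add_le _ _).trans ?_
      have h1 : ‖∑ j ∈ range J, ∑ t ∈ range l, (if (j * l + t) % q = r then
          (u (n + (j * l + t)) : ℂ) * f (P.eval ((j * l + t : ℕ) : ℝ)) else 0)‖ ≤
          c * ∑ j ∈ range J, ∑ t ∈ range l, (if (j * l + t) % q = r then v (n + (j * l + t)) else 0) +
          J * (ε / 4 * l + qs * (ε' * l)) := by
        refine (norm_sum_le _ _).trans ?_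
        calc _ ≤ ∑ j ∈ range J, (c * ∑ t ∈ range l, (if (j * l + t) % q = r then v (n + (j * l + t)) else 0) +
              (ε / 4 * l + qs * (ε' * l))) := by
              apply sum_le_sum
              intro j hj
              rw [mem_range] at hj
              have := hblk j hj
              linarith
          _ = _ := by
              rw [sum_add_distrib, ← mul_sum, sum_const, card_range, nsmul_eq_mul]
      have h2 : ‖∑ h ∈ range (L - J * l), (if (J * l + h) % q = r then
          (u (n + (J * l + h)) : ℂ) * f (P.eval ((J * l + h : ℕ) : ℝ)) else 0)‖ ≤ ε / 4 * L := by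
        refine (norm_sum_le _ _).trans ?_
        calc _ ≤ ∑ h ∈ range (L - J * l), F := by
              apply sum_le_sum
              intro h _
              split_ifs
              · rw [norm_mul, Complex.norm_real, Real.norm_eq_abs]
                calc |u (n + (J * l + h))| * ‖f (P.eval ((J * l + h : ℕ) : ℝ))‖ ≤ 1 * F :=
                      mul_le_mul ((huv _).trans (hv1 _)) (hF _) (norm_nonneg _) zero_le_one
                  _ = F := one_mul _
              · rw [norm_zero]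
                exact hF0
          _ = (L - J * l : ℕ) * F := by rw [sum_const, card_range, nsmul_eq_mul]
          _ ≤ J * F := by
              apply mul_le_mul_of_nonneg_right _ hF0
              exact_mod_cast hrem
          _ ≤ ε / 4 * L := hJF
      have h3 : 0 ≤ ∑ h ∈ range (L - J * l), (if (J * l + h) % q = r then v (n + (J * l + h)) else 0) := by
        apply sum_nonneg
        intro h _
        split_ifs
        · exact hv0 _
        · exact le_rfl
      have hlr : (J : ℝ) * l ≤ L := by exact_mod_cast hl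
      have h4 : J * (ε / 4 * l + qs * (ε' * l)) ≤ ε / 4 * L + ε / 4 * L := by
        have e1 : (J : ℝ) * (ε / 4 * l + qs * (ε' * l)) = ε / 4 * (J * l) + (qs * J * ε') * l := by ring
        have e2 : (qs : ℝ) * J * ε' = ε / 4 := by
          rw [hε'def]
          field_simp
        have e3 : (l : ℝ) ≤ L := by
          have : (0 : ℝ) ≤ l := Nat.cast_nonneg _
          nlinarith
        rw [e1, e2]
        gcongr
      have h5 := mul_nonneg hc0 h3
      have h6 : 0 ≤ ε * L := by positivity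
      rw [mul_add]
      linarith
  -- counting
  have hN0 : (0 : ℝ) < N := by exact_mod_cast (by omega : 0 < N)
  have hsub : (Icc 1 N).filter (Exc u v f c (d + 1) q L ε) ⊆
      (range J).biUnion (fun j => (Icc 1 N).filter (fun n => Exc u v f c d qs l ε' (n + j * l))) := by
    intro n hn
    rw [mem_filter] at hn
    obtain ⟨j, hj, hE⟩ := key n hn.2
    rw [mem_biUnion]
    exact ⟨j, mem_range.2 hj, mem_filter.2 ⟨hn.1, hE⟩⟩
  have hcnt : ∀ j ∈ range J, ((Icc 1 N).filter (fun n => Exc u v f c d qs l ε' (n + j * l))).card ≤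
      ((Icc 1 (N + L)).filter (Exc u v f c d qs l ε')).card := by
    intro j hj
    rw [mem_range] at hj
    apply card_le_card_of_injOn (fun n => n + j * l)
    · intro n hn
      rw [mem_coe, mem_filter, mem_Icc] at hn
      rw [mem_coe, mem_filter, mem_Icc]
      have h7 : j * l ≤ L := (Nat.mul_le_mul_right _ hj.le).trans hl
      exact ⟨⟨le_add_right hn.1.1, Nat.add_le_add hn.1.2 h7⟩, hn.2⟩
    · intro a _ b _ hab
      exact Nat.add_right_cancel hab
  have h1 := hN₁ (N + L) (by omega)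
  calc (((Icc 1 N).filter (Exc u v f c (d + 1) q L ε)).card : ℝ) ≤
        ((∑ j ∈ range J, ((Icc 1 (N + L)).filter (Exc u v f c d qs l ε')).card : ℕ) : ℝ) := by
        exact_mod_cast (card_le_card hsub).trans (card_biUnion_le.trans (sum_le_sum hcnt))
    _ = J * (((Icc 1 (N + L)).filter (Exc u v f c d qs l ε')).card : ℝ) := by
        rw [sum_const, card_range, smul_eq_mul]
        push_cast
        rfl
    _ ≤ J * (ε' * ((N + L : ℕ) : ℝ)) := mul_le_mul_of_nonneg_left h1 (by positivity)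
    _ ≤ J * (ε' * (2 * N)) := by
        have : ((N + L : ℕ) : ℝ) ≤ 2 * N := by
          have : (L : ℝ) ≤ N := by exact_mod_cast (by omega : L ≤ N)
          push_cast
          linarith
        gcongr
    _ = ε * N / (2 * qs) := by
        rw [hε'def]
        field_simp
        ring
    _ ≤ ε * N := div_le_self (by positivity) (by linarith)

open scoped Classical in
/-- the base case -/
theorem base (huv : ∀ n, |u n| ≤ v n) (hF : ∀ x, ‖f x‖ ≤ F) (hc0 : 0 ≤ c) (hM : MRAP u) : Tst u v f c W 0 := by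
  intro q hq _ ε hε
  have hF0 : 0 ≤ F := (norm_nonneg _).trans (hF 0)
  have hv0 : ∀ n, 0 ≤ v n := fun n => (abs_nonneg _).trans (huv n)
  have hq0 : (0 : ℝ) < q := by exact_mod_cast hq
  set ε' : ℝ := ε ^ 2 / (q * (F + 1)) with hε'
  obtain ⟨L₀, h⟩ := hM q hq ε' (by positivity)
  refine ⟨L₀ + 1, fun L hL => ?_⟩
  obtain ⟨N₀, h⟩ := h L (by omega)
  refine ⟨N₀, fun N hN => ?_⟩
  have hL0 : (0 : ℝ) < L := by exact_mod_cast (by omega : 0 < L)
  have h1 := h N hN
  set E := (Icc 1 N).filter (Exc u v f c 0 q L ε) with hE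
  have h2 : ∀ n ∈ E, ε * L / (F + 1) ≤ ∑ r ∈ range q, |∑ h ∈ (range L).filter (fun h => h % q = r), u (n + h)| := by
    intro n hn
    rw [hE, mem_filter] at hn
    obtain ⟨P, hP, r, hr, hbig⟩ := hn.2
    have hP0 : ∀ x : ℝ, P.eval x = P.coeff 0 := by
      intro x
      rw [eq_C_of_natDegree_le_zero hP, eval_C, coeff_C_zero]
    have e1 : ‖∑ h ∈ (range L).filter (fun h => h % q = r), (u (n + h) : ℂ) * f (P.eval (h : ℝ))‖ ≤
        |∑ h ∈ (range L).filter (fun h => h % q = r), u (n + h)| * F := by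
      have e2 : ∑ h ∈ (range L).filter (fun h => h % q = r), (u (n + h) : ℂ) * f (P.eval (h : ℝ)) =
          ((∑ h ∈ (range L).filter (fun h => h % q = r), u (n + h) : ℝ) : ℂ) * f (P.coeff 0) := by
        push_cast
        rw [sum_mul]
        apply sum_congr rfl
        intro h _
        rw [hP0]
      rw [e2, norm_mul, Complex.norm_real, Real.norm_eq_abs]
      exact mul_le_mul_of_nonneg_left (hF _) (abs_nonneg _)
    have e3 : 0 ≤ c * ∑ h ∈ (range L).filter (fun h => h % q = r), v (n + h) :=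
      mul_nonneg hc0 (sum_nonneg fun _ _ => hv0 _)
    refine le_trans ?_ (single_le_sum (f := fun r => |∑ h ∈ (range L).filter (fun h => h % q = r), u (n + h)|)
      (fun _ _ => abs_nonneg _) (mem_range.2 hr))
    rw [div_le_iff₀ (by positivity)]
    have e4 := abs_nonneg (∑ h ∈ (range L).filter (fun h => h % q = r), u (n + h))
    show ε * L ≤ |∑ h ∈ (range L).filter (fun h => h % q = r), u (n + h)| * (F + 1)
    nlinarith
  have h3 : (E.card : ℝ) * (ε * L / (F + 1)) ≤ q * (ε' * L * N) := by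
    calc (E.card : ℝ) * (ε * L / (F + 1)) = ∑ _n ∈ E, ε * L / (F + 1) := by rw [sum_const, nsmul_eq_mul]
      _ ≤ ∑ n ∈ E, ∑ r ∈ range q, |∑ h ∈ (range L).filter (fun h => h % q = r), u (n + h)| := sum_le_sum h2
      _ ≤ ∑ n ∈ Icc 1 N, ∑ r ∈ range q, |∑ h ∈ (range L).filter (fun h => h % q = r), u (n + h)| :=
          sum_le_sum_of_subset_of_nonneg (filter_subset _ _) (fun _ _ _ => sum_nonneg fun _ _ => abs_nonneg _)
      _ = ∑ r ∈ range q, ∑ n ∈ Icc 1 N, |∑ h ∈ (range L).filter (fun h => h % q = r), u (n + h)| := sum_comm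
      _ ≤ ∑ r ∈ range q, ε' * L * N := sum_le_sum fun r hr => h1 r (mem_range.1 hr)
      _ = q * (ε' * L * N) := by rw [sum_const, card_range, nsmul_eq_mul]
  have h4 : q * (ε' * L * N) = (ε * N) * (ε * L / (F + 1)) := by
    rw [hε']
    field_simp
  rw [h4] at h3
  exact le_of_mul_le_mul_right h3 (by positivity)

/-- few exceptional windows for all degrees -/
theorem all_degrees (huv : ∀ n, |u n| ≤ v n) (hv1 : ∀ n, v n ≤ 1) (hvW : ∀ n, v (n + W) = v n)
    (hf : Continuous f) (hp : Function.Periodic f 1) (hF : ∀ x, ‖f x‖ ≤ F) (hc0 : 0 ≤ c)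
    (hc : ∀ t, ∫ x in (0 : ℝ)..1, gd f t x ≤ c) (hM : MRAP u) (d : ℕ) : Tst u v f c W d := by
  induction d with
  | zero => exact base u v f F c W huv hF hc0 hM
  | succ d ih => exact step u v f F c W huv hv1 hvW hf hp hF hc0 hc d ih

end

end Pool.Agent.Q42.PP
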