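import Pool.Agent.Q42.PP.Sum
import Pool.Agent.Q42.RS.Mu
import Pool.Agent.TH823.MRS.Circ5

/-!
# The inputs for the Liouville and the Moebius function
-/

set_option autoImplicit false

namespace Pool.Agent.Q42.PP

open Finset
open Pool.Agent.Helper602.MK (ee)
open Pool.Agent.Helper602.MK.N_J5b (ee_eq ee_add ee_zero ee_conj norm_ee ee_int ee_nat_mul)
open Pool.Agent.TH823.MRS (ExpoSmall win_l1)
open Pool.Agent.Q42.RS (mu mu_abs mu_window mult_tail)

lemma ee_dav (x : ℝ) : Pool.Agent.H807R2.Dav.ee x = ee x := by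
  unfold Pool.Agent.H807R2.Dav.ee ee
  congr 1
  ring

/-- short progressions from short exponential sums -/
theorem mrap_of (u : ℕ → ℝ) (hE : ExpoSmall (fun n => ((u n : ℝ) : ℂ))) : MRAP u := by
  intro q hq ε hε
  obtain ⟨W₀, X₀, hW⟩ := win_l1 _ hE ε hε
  refine ⟨W₀ + 1, fun L hL => ⟨X₀ + L + 1, fun N hN r _ => ?_⟩⟩
  have hq0 : (0 : ℝ) < q := by exact_mod_cast hq
  have hqc : (q : ℂ) ≠ 0 := by exact_mod_cast hq0.ne'
  have hL1 : 1 ≤ L := by omega
  -- the window sums
  have key : ∀ n ∈ Icc 1 N, |∑ h ∈ (range L).filter (fun h => h % q = r), u (n + h)| ≤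
      (1 / q) * ∑ t ∈ range q, ‖∑ m ∈ Icc 1 (3 * N), if m ≤ n + L - 1 ∧ n + L - 1 < m + L then
        ((u m : ℝ) : ℂ) * Pool.Agent.H807R2.Dav.ee ((m : ℝ) * ((t : ℝ) / q)) else 0‖ := by
    intro n hn
    rw [mem_Icc] at hn
    have e1 : ∀ t : ℕ, (∑ m ∈ Icc 1 (3 * N), if m ≤ n + L - 1 ∧ n + L - 1 < m + L then
        ((u m : ℝ) : ℂ) * Pool.Agent.H807R2.Dav.ee ((m : ℝ) * ((t : ℝ) / q)) else 0) =
        ∑ h ∈ range L, ((u (n + h) : ℝ) : ℂ) * ee (((n + h : ℕ) : ℝ) * ((t : ℝ) / q)) := by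
      intro t
      rw [← sum_filter]
      have e2 : (Icc 1 (3 * N)).filter (fun m => m ≤ n + L - 1 ∧ n + L - 1 < m + L) = Ico n (n + L) := by
        ext m
        simp only [mem_filter, mem_Icc, mem_Ico]
        omega
      rw [e2, sum_Ico_eq_sum_range, Nat.add_sub_cancel_left]
      apply sum_congr rfl
      intro h _
      rw [ee_dav]
    simp only [e1]
    have e3 : ((∑ h ∈ (range L).filter (fun h => h % q = r), u (n + h) : ℝ) : ℂ) =
        (1 / q) * ∑ t ∈ range q, ee (-(((n + r : ℕ) : ℝ) * ((t : ℝ) / q))) *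
          ∑ h ∈ range L, ((u (n + h) : ℝ) : ℂ) * ee (((n + h : ℕ) : ℝ) * ((t : ℝ) / q)) := by
      have e4 : ∀ h : ℕ, ∑ t ∈ range q, ee (((h : ℝ) - r) * ((t : ℝ) / q)) = if h % q = r % q then (q : ℂ) else 0 := by
        intro h
        have h1 := Pool.Agent.H373R2.T7.orth q hq ((h : ℤ) - r)
        have h2 : ∑ t ∈ range q, ee (((h : ℝ) - r) * ((t : ℝ) / q)) =
            ∑ t ∈ range q, Pool.Agent.H807R2.Dav.ee ((t : ℝ) * ((((h : ℤ) - r : ℤ) : ℝ) / q)) := by
          apply sum_congr rfl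
          intro t _
          rw [ee_dav]
          congr 1
          push_cast
          ring
        rw [h2, h1]
        congr 1
        rw [eq_iff_iff]
        have h3 : (h : ℤ) - r ≡ 0 [ZMOD q] ↔ (h : ℤ) ≡ r [ZMOD q] := by
          constructor
          · intro h
            have := h.add_right (r : ℤ)
            simpa using this
          · intro h
            have := h.sub_right (r : ℤ)
            simpa using this
        rw [← Int.modEq_zero_iff_dvd, h3, Int.natCast_modEq_iff]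
        rfl
      have e5 : ∑ t ∈ range q, ee (-(((n + r : ℕ) : ℝ) * ((t : ℝ) / q))) *
          ∑ h ∈ range L, ((u (n + h) : ℝ) : ℂ) * ee (((n + h : ℕ) : ℝ) * ((t : ℝ) / q)) =
          ∑ h ∈ range L, ((u (n + h) : ℝ) : ℂ) * (if h % q = r % q then (q : ℂ) else 0) := by
        simp only [mul_sum]
        rw [sum_comm]
        apply sum_congr rfl
        intro h _
        rw [← e4, mul_sum]
        apply sum_congr rfl
        intro t _
        have : ee (((h : ℝ) - r) * ((t : ℝ) / q)) = ee (-(((n + r : ℕ) : ℝ) * ((t : ℝ) / q))) * ee (((n + h : ℕ) : ℝ) * ((t : ℝ) / q)) := by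
          rw [← ee_add]
          congr 1
          push_cast
          ring
        rw [this]
        ring
      rw [e5, mul_sum, sum_filter]
      push_cast
      apply sum_congr rfl
      intro h _
      rw [Nat.mod_eq_of_lt ‹r < q›]
      split_ifs
      · field_simp
      · simp
    rw [← Real.norm_eq_abs, ← Complex.norm_real, e3, norm_mul]
    have e6 : ‖(1 / (q : ℂ))‖ = 1 / q := by
      rw [norm_div, norm_one, Complex.norm_natCast]
    rw [e6]
    apply mul_le_mul_of_nonneg_left _ (by positivity)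
    refine (norm_sum_le _ _).trans (sum_le_sum fun t _ => ?_)
    rw [norm_mul, norm_ee, one_mul]
  refine (sum_le_sum key).trans ?_
  rw [← mul_sum, sum_comm]
  have h2 : ∀ t ∈ range q, ∑ n ∈ Icc 1 N, ‖∑ m ∈ Icc 1 (3 * N), if m ≤ n + L - 1 ∧ n + L - 1 < m + L then
        ((u m : ℝ) : ℂ) * Pool.Agent.H807R2.Dav.ee ((m : ℝ) * ((t : ℝ) / q)) else 0‖ ≤ ε * L * N := by
    intro t _
    refine le_trans ?_ (hW N (by omega) L (by omega) (by omega) ((t : ℝ) / q))
    have h3 : ∑ n ∈ Icc 1 N, ‖∑ m ∈ Icc 1 (3 * N), if m ≤ n + L - 1 ∧ n + L - 1 < m + L then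
        ((u m : ℝ) : ℂ) * Pool.Agent.H807R2.Dav.ee ((m : ℝ) * ((t : ℝ) / q)) else 0‖ =
        ∑ z ∈ Icc L (N + L - 1), ‖∑ m ∈ Icc 1 (3 * N), if m ≤ z ∧ z < m + L then
        ((u m : ℝ) : ℂ) * Pool.Agent.H807R2.Dav.ee ((m : ℝ) * ((t : ℝ) / q)) else 0‖ := by
      refine sum_nbij' (fun n => n + L - 1) (fun z => z + 1 - L) ?_ ?_ ?_ ?_ ?_
      · intro n hn
        rw [mem_Icc] at hn ⊢
        omega
      · intro z hz
        rw [mem_Icc] at hz ⊢
        omega
      · intro n hn
        rw [mem_Icc] at hn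
        show n + L - 1 + 1 - L = n
        omega
      · intro z hz
        rw [mem_Icc] at hz
        show z + 1 - L + L - 1 = z
        omega
      · intro n _
        rfl
    rw [h3]
    apply sum_le_sum_of_subset_of_nonneg
    · intro z hz
      rw [mem_Icc] at hz
      rw [mem_range]
      omega
    · intro _ _ _
      exact norm_nonneg _
  calc (1 / (q : ℝ)) * ∑ t ∈ range q, ∑ n ∈ Icc 1 N, ‖∑ m ∈ Icc 1 (3 * N), if m ≤ n + L - 1 ∧ n + L - 1 < m + L then
        ((u m : ℝ) : ℂ) * Pool.Agent.H807R2.Dav.ee ((m : ℝ) * ((t : ℝ) / q)) else 0‖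
      ≤ (1 / (q : ℝ)) * ∑ t ∈ range q, ε * L * N := mul_le_mul_of_nonneg_left (sum_le_sum h2) (by positivity)
    _ = ε * L * N := by
        rw [sum_const, card_range, nsmul_eq_mul]
        field_simp

/-- a periodic majorant of the squarefree numbers -/
theorem maj_mu (ε : ℝ) (hε : 0 < ε) : ∃ W : ℕ, 1 ≤ W ∧ ∃ v : ℕ → ℝ, (∀ n, |mu n| ≤ v n) ∧ (∀ n, v n ≤ 1) ∧
    (∀ n, v (n + W) = v n) ∧ ∑ r ∈ range W, v r ≤ (6 / Real.pi ^ 2 + ε) * W := by
  classical
  obtain ⟨w, hw⟩ := exists_nat_ge (12 / ε + 1)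
  have hw1 : 1 ≤ w := by
    have : (0 : ℝ) < w := lt_of_lt_of_le (by positivity) hw
    exact_mod_cast this
  have hw0 : (0 : ℝ) < w := by exact_mod_cast hw1
  set W : ℕ := (w.factorial) ^ 2 with hW
  have hW1 : 1 ≤ W := Nat.one_le_iff_ne_zero.2 (pow_ne_zero _ (Nat.factorial_ne_zero _))
  have hW0 : (0 : ℝ) < W := by exact_mod_cast hW1
  set v : ℕ → ℝ := fun n => if ∃ p, p.Prime ∧ p ≤ w ∧ p ^ 2 ∣ n then 0 else 1 with hv
  have hv1 : ∀ n, v n ≤ 1 := by
    intro n
    rw [hv]
    simp only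
    split_ifs <;> norm_num
  have hv0 : ∀ n, 0 ≤ v n := by
    intro n
    rw [hv]
    simp only
    split_ifs <;> norm_num
  have hvW : ∀ n, v (n + W) = v n := by
    intro n
    rw [hv]
    simp only
    congr 1
    rw [eq_iff_iff]
    constructor
    · rintro ⟨p, h1, h2, h3⟩
      refine ⟨p, h1, h2, ?_⟩
      have h4 : p ^ 2 ∣ W := pow_dvd_pow_of_dvd (Nat.dvd_factorial h1.pos h2) 2
      exact (Nat.dvd_add_left h4).1 h3
    · rintro ⟨p, h1, h2, h3⟩
      refine ⟨p, h1, h2, ?_⟩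
      have h4 : p ^ 2 ∣ W := pow_dvd_pow_of_dvd (Nat.dvd_factorial h1.pos h2) 2
      exact Dvd.dvd.add h3 h4
  have hmv : ∀ n, |mu n| ≤ v n := by
    intro n
    rw [hv]
    simp only
    split_ifs with h
    · obtain ⟨p, h1, h2, h3⟩ := h
      have : ¬ Squarefree n := by
        intro hs
        have := hs p (by rw [← sq]; exact h3)
        exact h1.one_lt.ne' (Nat.isUnit_iff.1 this)
      unfold mu
      rw [ArithmeticFunction.moebius_eq_zero_of_not_squarefree this]
      simp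
    · exact mu_abs n
  refine ⟨W, hW1, v, hmv, hv1, hvW, ?_⟩
  -- counting
  have hcmp : ∀ n M : ℕ, 1 ≤ n → n ≤ M → v n ≤ mu n ^ 2 + ∑ d ∈ Ioc w M, (if d ^ 2 ∣ n then (1 : ℝ) else 0) := by
    intro n M hn hnM
    have hs0 : 0 ≤ ∑ d ∈ Ioc w M, (if d ^ 2 ∣ n then (1 : ℝ) else 0) :=
      sum_nonneg fun _ _ => by split_ifs <;> norm_num
    by_cases hsq : Squarefree n
    · have : mu n ^ 2 = 1 := by
        unfold mu
        have := ArithmeticFunction.moebius_sq_eq_one_of_squarefree hsq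
        exact_mod_cast this
      rw [this]
      linarith [hv1 n]
    · by_cases hp : ∃ p, p.Prime ∧ p ≤ w ∧ p ^ 2 ∣ n
      · have : v n = 0 := by
          rw [hv]
          simp only
          rw [if_pos hp]
        rw [this]
        positivity
      · rw [Nat.squarefree_iff_prime_squarefree] at hsq
        push Not at hsq
        obtain ⟨p, h1, h2⟩ := hsq
        rw [← sq] at h2
        have h3 : w < p := by
          by_contra h
          exact hp ⟨p, h1, not_lt.1 h, h2⟩
        have h4 : p ≤ M := by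
          have h5 := Nat.le_of_dvd (by omega) h2
          have h6 : p ≤ p ^ 2 := Nat.le_self_pow two_ne_zero p
          omega
        have h7 : (1 : ℝ) ≤ ∑ d ∈ Ioc w M, (if d ^ 2 ∣ n then (1 : ℝ) else 0) := by
          refine le_trans ?_ (single_le_sum (f := fun d => if d ^ 2 ∣ n then (1 : ℝ) else 0)
            (fun _ _ => by split_ifs <;> norm_num) (mem_Ioc.2 ⟨h3, h4⟩))
          rw [if_pos h2]
        have := sq_nonneg (mu n)
        linarith [hv1 n]
  have hmain : ∀ k : ℕ, (k : ℝ) * ∑ r ∈ range W, v r ≤ 6 / Real.pi ^ 2 * (k * W) + w + 6 * (k * W) / w + 5 := by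
    intro k
    have h1 : ∑ a ∈ range (k * W), v (w + a) = k * ∑ r ∈ range W, v r := by
      rw [sum_blocks]
      have : ∀ j ∈ range k, ∑ t ∈ range W, v (w + (j * W + t)) = ∑ r ∈ range W, v r := by
        intro j _
        rw [← vblock v W hvW (w + j * W)]
        apply sum_congr rfl
        intro t _
        rw [add_assoc]
      rw [sum_congr rfl this, sum_const, card_range, nsmul_eq_mul]
    rw [← h1]
    set Y := k * W with hY
    set M := 3 * (w + Y) with hM
    have h2 : ∑ a ∈ range Y, v (w + a) ≤ ∑ a ∈ range Y, (mu (w + a) ^ 2 + ∑ d ∈ Ioc w M, (if d ^ 2 ∣ w + a then (1 : ℝ) else 0)) := by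
      apply sum_le_sum
      intro a ha
      rw [mem_range] at ha
      exact hcmp (w + a) M (by omega) (by omega)
    rw [sum_add_distrib] at h2
    have h3 := (abs_le.1 (mu_window w (w + Y) w Y hw1 le_rfl (by omega))).2
    have h4 : ∑ a ∈ range Y, ∑ d ∈ Ioc w M, (if d ^ 2 ∣ w + a then (1 : ℝ) else 0) ≤ ((w + Y : ℕ) : ℝ) / w := by
      have h5 := mult_tail w (w + Y) hw1 (Ico w (w + Y)) (fun n hn => by rw [mem_Ico] at hn; omega)
      refine le_trans (le_of_eq ?_) h5
      rw [sum_Ico_eq_sum_range, Nat.add_sub_cancel_left]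
      apply sum_congr rfl
      intro a ha
      rw [mem_range] at ha
      symm
      apply sum_subset_zero_on_sdiff
      · intro d hd
        rw [mem_Ioc] at hd ⊢
        omega
      · intro d hd
        rw [mem_sdiff, mem_Ioc, mem_Ioc] at hd
        rw [if_neg]
        intro h
        have h6 := Nat.le_of_dvd (by omega) h
        have h7 : d ≤ d ^ 2 := Nat.le_self_pow two_ne_zero d
        omega
      · intro _ _
        rfl
    have h5 : ((w + Y : ℕ) : ℝ) / w = 1 + Y / w := by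
      push_cast
      field_simp
    rw [h5] at h4
    have h6 : ((k : ℝ) * W) = (Y : ℝ) := by rw [hY]; push_cast; rfl
    rw [h6]
    have h7 : (Y : ℝ) / w = Y / w := rfl
    have h8 : 6 * (Y : ℝ) / w = 6 * (Y / w) := by ring
    have h9 : (0 : ℝ) ≤ Y / w := by positivity
    rw [h8]
    linarith
  set V := ∑ r ∈ range W, v r with hV
  by_contra hno
  rw [not_le] at hno
  obtain ⟨k, hk⟩ := exists_nat_gt ((w + 5) / (ε / 2 * W))
  rw [div_lt_iff₀ (by positivity)] at hk
  have h1 := hmain k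
  have hk0 : (0 : ℝ) < k := by
    by_contra h
    rw [not_lt] at h
    have h2 : (k : ℝ) = 0 := le_antisymm h (Nat.cast_nonneg _)
    rw [h2, zero_mul] at hk
    have : (0 : ℝ) < w + 5 := by positivity
    linarith
  have h2 : 6 * (k * W) / w ≤ ε / 2 * (k * W) := by
    rw [div_le_iff₀ hw0]
    have h3 : 12 / ε ≤ w := by linarith
    rw [div_le_iff₀ hε] at h3
    have h4 : (0 : ℝ) ≤ k * W := by positivity
    nlinarith
  have h3 : (k : ℝ) * ((6 / Real.pi ^ 2 + ε) * W) < k * V := mul_lt_mul_of_pos_left hno hk0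
  nlinarith

end Pool.Agent.Q42.PP
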