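import Mathlib
import Pool.Agent.Q51.MD.PVa

/-!
# A quantitative Weyl criterion
-/

set_option autoImplicit false

namespace Pool.Agent.Q42.PP

open Finset
open Pool.Agent.Helper602.MK (ee)
open Pool.Agent.Helper602.MK.N_J5b (ee_eq ee_add ee_zero ee_conj norm_ee ee_int ee_nat_mul)

/-- the mean -/
noncomputable def I0 (F : C(UnitAddCircle, ℂ)) : ℂ := ∫ x in (0 : ℝ)..1, F (x : UnitAddCircle)

/-- small exponential sums force the average of `F` to be near its mean -/
def Pr (F : C(UnitAddCircle, ℂ)) : Prop := ∀ ε : ℝ, 0 < ε → ∃ K : ℕ, ∃ δ : ℝ, 0 < δ ∧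
  ∀ (S : Finset ℕ) (φ : ℕ → ℝ) (M : ℝ), (S.card : ℝ) ≤ M →
    (∀ k ∈ Icc 1 K, ‖∑ i ∈ S, ee (k * φ i)‖ ≤ δ * M) →
    ‖∑ i ∈ S, F (φ i : UnitAddCircle) - S.card * I0 F‖ ≤ ε * M

lemma cint (F : C(UnitAddCircle, ℂ)) :
    IntervalIntegrable (fun x : ℝ => F (x : UnitAddCircle)) MeasureTheory.volume 0 1 :=
  (F.continuous.comp (AddCircle.continuous_mk' 1)).intervalIntegrable _ _

lemma I0_add (F G : C(UnitAddCircle, ℂ)) : I0 (F + G) = I0 F + I0 G := by
  unfold I0
  rw [← intervalIntegral.integral_add (cint F) (cint G)]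
  rfl

lemma I0_smul (c : ℂ) (F : C(UnitAddCircle, ℂ)) : I0 (c • F) = c * I0 F := by
  unfold I0
  rw [← intervalIntegral.integral_const_mul]
  rfl

lemma I0_sub_le (F G : C(UnitAddCircle, ℂ)) : ‖I0 F - I0 G‖ ≤ ‖F - G‖ := by
  unfold I0
  rw [← intervalIntegral.integral_sub (cint F) (cint G)]
  have := intervalIntegral.norm_integral_le_of_norm_le_const (a := (0 : ℝ)) (b := 1) (C := ‖F - G‖)
    (f := fun x : ℝ => F (x : UnitAddCircle) - G (x : UnitAddCircle)) (fun x _ => (F - G).norm_coe_le_norm x)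
  simpa using this

lemma Pr_add {F G : C(UnitAddCircle, ℂ)} (hF : Pr F) (hG : Pr G) : Pr (F + G) := by
  intro ε hε
  obtain ⟨K1, d1, h1, h2⟩ := hF (ε / 2) (by positivity)
  obtain ⟨K2, d2, h3, h4⟩ := hG (ε / 2) (by positivity)
  refine ⟨max K1 K2, min d1 d2, lt_min h1 h3, fun S φ M hS hk => ?_⟩
  have hM : 0 ≤ M := (Nat.cast_nonneg _).trans hS
  have e1 := h2 S φ M hS (fun k hk' => (hk k (by
    rw [mem_Icc] at hk' ⊢
    exact ⟨hk'.1, hk'.2.trans (le_max_left _ _)⟩)).trans (mul_le_mul_of_nonneg_right (min_le_left _ _) hM))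
  have e2 := h4 S φ M hS (fun k hk' => (hk k (by
    rw [mem_Icc] at hk' ⊢
    exact ⟨hk'.1, hk'.2.trans (le_max_right _ _)⟩)).trans (mul_le_mul_of_nonneg_right (min_le_right _ _) hM))
  have e3 : ∑ i ∈ S, (F + G) (φ i : UnitAddCircle) - S.card * I0 (F + G) =
      (∑ i ∈ S, F (φ i : UnitAddCircle) - S.card * I0 F) + (∑ i ∈ S, G (φ i : UnitAddCircle) - S.card * I0 G) := by
    rw [I0_add]
    simp only [ContinuousMap.add_apply, sum_add_distrib]
    ring
  rw [e3]
  refine (norm_add_le _ _).trans ?_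
  linarith

lemma Pr_smul (c : ℂ) {F : C(UnitAddCircle, ℂ)} (hF : Pr F) : Pr (c • F) := by
  intro ε hε
  obtain ⟨K1, d1, h1, h2⟩ := hF (ε / (‖c‖ + 1)) (by positivity)
  refine ⟨K1, d1, h1, fun S φ M hS hk => ?_⟩
  have hM : 0 ≤ M := (Nat.cast_nonneg _).trans hS
  have e1 := h2 S φ M hS hk
  have e3 : ∑ i ∈ S, (c • F) (φ i : UnitAddCircle) - S.card * I0 (c • F) =
      c * (∑ i ∈ S, F (φ i : UnitAddCircle) - S.card * I0 F) := by
    rw [I0_smul, mul_sub, mul_sum]
    simp only [ContinuousMap.smul_apply, smul_eq_mul]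
    ring
  rw [e3, norm_mul]
  calc ‖c‖ * ‖∑ i ∈ S, F (φ i : UnitAddCircle) - S.card * I0 F‖ ≤ ‖c‖ * (ε / (‖c‖ + 1) * M) := by gcongr
    _ = (‖c‖ / (‖c‖ + 1)) * (ε * M) := by ring
    _ ≤ 1 * (ε * M) := by
        apply mul_le_mul_of_nonneg_right _ (by positivity)
        rw [div_le_one (by positivity)]
        linarith
    _ = ε * M := one_mul _

lemma Pr_zero : Pr 0 := by
  intro ε hε
  refine ⟨0, 1, one_pos, fun S φ M hS _ => ?_⟩
  have hM : 0 ≤ M := (Nat.cast_nonneg _).trans hS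
  have : I0 0 = 0 := by unfold I0; simp
  rw [this]
  simp
  positivity

lemma Pr_fourier (n : ℤ) : Pr (fourier n) := by
  have hx : ∀ x : ℝ, (fourier n : C(UnitAddCircle, ℂ)) (x : UnitAddCircle) = ee (n * x) := by
    intro x
    rw [fourier_coe_apply]
    unfold ee
    congr 1
    push_cast
    ring
  rcases eq_or_ne n 0 with h0 | h0
  · intro ε hε
    refine ⟨0, 1, one_pos, fun S φ M hS _ => ?_⟩
    have hM : 0 ≤ M := (Nat.cast_nonneg _).trans hS
    have e1 : I0 (fourier n) = 1 := by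
      unfold I0
      simp only [hx, h0]
      simp [ee_zero]
    rw [e1]
    simp only [hx, h0]
    simp [ee_zero]
    positivity
  · have e1 : I0 (fourier n) = 0 := by
      unfold I0
      simp only [hx]
      unfold ee
      have h2 : ∀ x : ℝ, Complex.exp (2 * Real.pi * ((n * x : ℝ) : ℂ) * Complex.I) =
          Complex.exp ((2 * Real.pi * n * Complex.I) * (x : ℂ)) := by
        intro x
        congr 1
        push_cast
        ring
      have hc : (2 * Real.pi * n * Complex.I : ℂ) ≠ 0 := by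
        have : (n : ℂ) ≠ 0 := by exact_mod_cast h0
        have h3 : (Real.pi : ℂ) ≠ 0 := by exact_mod_cast Real.pi_ne_zero
        simp [this, h3, Complex.I_ne_zero]
      rw [intervalIntegral.integral_congr (g := fun x : ℝ => Complex.exp ((2 * Real.pi * n * Complex.I) * (x : ℂ)))
        (fun x _ => h2 x), integral_exp_mul_complex hc]
      have h4 : Complex.exp (2 * Real.pi * n * Complex.I * ((1 : ℝ) : ℂ)) = 1 := by
        rw [Complex.exp_eq_one_iff]
        exact ⟨n, by push_cast; ring⟩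
      rw [h4]
      simp
    intro ε hε
    obtain ⟨m, hm⟩ := n.eq_nat_or_neg
    have hm0 : 1 ≤ m := by
      rcases hm with h | h <;> omega
    refine ⟨m, ε, hε, fun S φ M hS hk => ?_⟩
    have h1 := hk m (by rw [mem_Icc]; exact ⟨hm0, le_rfl⟩)
    rw [e1, mul_zero, sub_zero]
    simp only [hx]
    refine le_trans (le_of_eq ?_) h1
    rcases hm with h | h
    · rw [h, Int.cast_natCast]
    · have h6 : ∑ i ∈ S, ee ((n : ℝ) * φ i) = (starRingEnd ℂ) (∑ i ∈ S, ee ((m : ℝ) * φ i)) := by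
        rw [map_sum]
        apply sum_congr rfl
        intro i _
        rw [ee_conj, h]
        congr 1
        push_cast
        ring
      rw [h6, Complex.norm_conj]

lemma Pr_all (F : C(UnitAddCircle, ℂ)) : Pr F := by
  have hspan : ∀ G ∈ Submodule.span ℂ (Set.range (fourier (T := (1 : ℝ)))), Pr G := by
    intro G hG
    induction hG using Submodule.span_induction with
    | mem x hx =>
      obtain ⟨n, rfl⟩ := hx
      exact Pr_fourier n
    | zero => exact Pr_zero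
    | add x y _ _ hx hy => exact Pr_add hx hy
    | smul c x _ hx => exact Pr_smul c hx
  have hcl : F ∈ (Submodule.span ℂ (Set.range (fourier (T := (1 : ℝ))))).topologicalClosure := by
    rw [span_fourier_closure_eq_top]
    trivial
  rw [← SetLike.mem_coe, Submodule.topologicalClosure_coe, Metric.mem_closure_iff] at hcl
  intro ε hε
  obtain ⟨G, hG, hd⟩ := hcl (ε / 3) (by positivity)
  rw [dist_eq_norm] at hd
  obtain ⟨K, δ, hδ, h⟩ := hspan G hG (ε / 3) (by positivity)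
  refine ⟨K, δ, hδ, fun S φ M hS hk => ?_⟩
  have hM : 0 ≤ M := (Nat.cast_nonneg _).trans hS
  have h1 := h S φ M hS hk
  have h2 : ‖∑ i ∈ S, F (φ i : UnitAddCircle) - ∑ i ∈ S, G (φ i : UnitAddCircle)‖ ≤ ε / 3 * M := by
    rw [← sum_sub_distrib]
    refine (norm_sum_le _ _).trans ?_
    calc ∑ i ∈ S, ‖F (φ i : UnitAddCircle) - G (φ i : UnitAddCircle)‖ ≤ ∑ _i ∈ S, ε / 3 :=
          sum_le_sum fun i _ => ((F - G).norm_coe_le_norm _).trans hd.le
      _ = S.card * (ε / 3) := by rw [sum_const, nsmul_eq_mul]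
      _ ≤ M * (ε / 3) := by gcongr
      _ = ε / 3 * M := mul_comm _ _
  have h3 : ‖(S.card : ℂ) * I0 G - S.card * I0 F‖ ≤ ε / 3 * M := by
    rw [← mul_sub, norm_mul, Complex.norm_natCast, norm_sub_rev]
    calc (S.card : ℝ) * ‖I0 F - I0 G‖ ≤ M * (ε / 3) := by
          apply mul_le_mul hS ((I0_sub_le F G).trans hd.le) (norm_nonneg _) hM
      _ = ε / 3 * M := mul_comm _ _
  have e : ∑ i ∈ S, F (φ i : UnitAddCircle) - S.card * I0 F =
      (∑ i ∈ S, F (φ i : UnitAddCircle) - ∑ i ∈ S, G (φ i : UnitAddCircle)) +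
      (∑ i ∈ S, G (φ i : UnitAddCircle) - S.card * I0 G) + (S.card * I0 G - S.card * I0 F) := by ring
  rw [e]
  refine (norm_add₃_le).trans ?_
  linarith

/-- the quantitative Weyl criterion for a real continuous periodic function -/
theorem equi (g : ℝ → ℝ) (hg : Continuous g) (hp : Function.Periodic g 1) (ε : ℝ) (hε : 0 < ε) :
    ∃ K : ℕ, ∃ δ : ℝ, 0 < δ ∧ ∀ (S : Finset ℕ) (φ : ℕ → ℝ) (M : ℝ), (S.card : ℝ) ≤ M →
      (∀ k ∈ Icc 1 K, ‖∑ i ∈ S, ee (k * φ i)‖ ≤ δ * M) →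
      |∑ i ∈ S, g (φ i) - S.card * ∫ x in (0 : ℝ)..1, g x| ≤ ε * M := by
  have hp' : Function.Periodic (fun x => ((g x : ℝ) : ℂ)) 1 := fun x => by simp only [hp x]
  have hcont : Continuous (hp'.lift : UnitAddCircle → ℂ) := by
    apply continuous_coinduced_dom.mpr
    show Continuous (hp'.lift ∘ (fun x : ℝ => (x : UnitAddCircle)))
    have : (hp'.lift ∘ (fun x : ℝ => (x : UnitAddCircle))) = fun x => ((g x : ℝ) : ℂ) := by
      funext x
      exact Function.Periodic.lift_coe hp' x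
    rw [this]
    exact Complex.continuous_ofReal.comp hg
  obtain ⟨K, δ, hδ, h⟩ := Pr_all ⟨hp'.lift, hcont⟩ ε hε
  refine ⟨K, δ, hδ, fun S φ M hS hk => ?_⟩
  have h1 := h S φ M hS hk
  have hv : ∀ x : ℝ, (⟨hp'.lift, hcont⟩ : C(UnitAddCircle, ℂ)) (x : UnitAddCircle) = ((g x : ℝ) : ℂ) := by
    intro x
    exact Function.Periodic.lift_coe hp' x
  have hI : I0 ⟨hp'.lift, hcont⟩ = ((∫ x in (0 : ℝ)..1, g x : ℝ) : ℂ) := by
    unfold I0
    simp only [hv]
    exact intervalIntegral.integral_ofReal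
  rw [hI] at h1
  simp only [hv] at h1
  have h2 : ((∑ i ∈ S, g (φ i) - S.card * ∫ x in (0 : ℝ)..1, g x : ℝ) : ℂ) =
      ∑ i ∈ S, ((g (φ i) : ℝ) : ℂ) - (S.card : ℂ) * ((∫ x in (0 : ℝ)..1, g x : ℝ) : ℂ) := by
    push_cast
    rfl
  rw [← Real.norm_eq_abs, ← Complex.norm_real, h2]
  exact h1

end Pool.Agent.Q42.PP
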