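import Pool.Agent.Q42.PP.Unif

/-!
# Induction on the degree
-/

set_option autoImplicit false

namespace Pool.Agent.Q42.PP

open Finset Polynomial
open Pool.Agent.Helper602.MK (ee)
open Pool.Agent.Helper602.MK.N_J5b (ee_eq ee_add ee_zero ee_conj norm_ee ee_int ee_nat_mul)

/-- exceptional starting points of windows of length `L` -/
def Exc (u v : ℕ → ℝ) (f : ℝ → ℂ) (c : ℝ) (d q L : ℕ) (ε : ℝ) (n : ℕ) : Prop :=
  ∃ P : ℝ[X], P.natDegree ≤ d ∧ ∃ r < q,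
    c * ∑ h ∈ (range L).filter (fun h => h % q = r), v (n + h) + ε * L <
    ‖∑ h ∈ (range L).filter (fun h => h % q = r), (u (n + h) : ℂ) * f (P.eval (h : ℝ))‖

open scoped Classical in
/-- few exceptional starting points -/
def Tst (u v : ℕ → ℝ) (f : ℝ → ℂ) (c : ℝ) (W d : ℕ) : Prop :=
  ∀ q : ℕ, 1 ≤ q → W ∣ q → ∀ ε : ℝ, 0 < ε → ∃ L₀ : ℕ, ∀ L : ℕ, L₀ ≤ L → ∃ N₀ : ℕ, ∀ N : ℕ, N₀ ≤ N →
    (((Icc 1 N).filter (Exc u v f c d q L ε)).card : ℝ) ≤ ε * N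

/-- small averages over short progressions -/
def MRAP (u : ℕ → ℝ) : Prop := ∀ q : ℕ, 1 ≤ q → ∀ ε : ℝ, 0 < ε → ∃ L₀ : ℕ, ∀ L : ℕ, L₀ ≤ L →
  ∃ N₀ : ℕ, ∀ N : ℕ, N₀ ≤ N → ∀ r < q,
    ∑ n ∈ Icc 1 N, |∑ h ∈ (range L).filter (fun h => h % q = r), u (n + h)| ≤ ε * L * N

lemma vper (v : ℕ → ℝ) (W : ℕ) (hv : ∀ n, v (n + W) = v n) (q r : ℕ) (hWq : W ∣ q) (n h : ℕ) (hh : h % q = r) :
    v (n + h) = v (n + r) := by
  have h1 : ∀ k n : ℕ, v (n + W * k) = v n := by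
    intro k
    induction k with
    | zero => intro n; simp
    | succ k ih =>
      intro n
      rw [Nat.mul_succ, ← add_assoc, hv, ih]
  obtain ⟨q', rfl⟩ := hWq
  have h2 := Nat.div_add_mod h (W * q')
  rw [hh] at h2
  have h3 : n + h = (n + r) + W * (q' * (h / (W * q'))) := by
    rw [← mul_assoc]
    omega
  rw [h3, h1]

lemma pow_diff (A B : ℝ) (hB : 0 ≤ B) (hAB : B ≤ A) (n : ℕ) : A ^ (n + 1) - B ^ (n + 1) ≤ (n + 1) * (A - B) * A ^ n := by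
  have hA : 0 ≤ A := hB.trans hAB
  induction n with
  | zero => simp
  | succ n ih =>
    have h1 : A ^ (n + 1 + 1) - B ^ (n + 1 + 1) = A * (A ^ (n + 1) - B ^ (n + 1)) + B ^ (n + 1) * (A - B) := by ring
    rw [h1]
    have h2 : B ^ (n + 1) ≤ A ^ (n + 1) := pow_le_pow_left₀ hB hAB _
    have h3 : 0 ≤ A - B := by linarith
    have h4 := mul_le_mul_of_nonneg_left ih hA
    have h5 := mul_le_mul_of_nonneg_right h2 h3
    push_cast
    calc A * (A ^ (n + 1) - B ^ (n + 1)) + B ^ (n + 1) * (A - B)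
        ≤ A * ((n + 1) * (A - B) * A ^ n) + A ^ (n + 1) * (A - B) := by linarith
      _ = (n + 1 + 1) * (A - B) * A ^ (n + 1) := by ring

section

variable (u v : ℕ → ℝ) (f : ℝ → ℂ) (F c : ℝ) (W : ℕ)

/-- the minor case -/
lemma minor_case (huv : ∀ n, |u n| ≤ v n) (hv1 : ∀ n, v n ≤ 1) (hvW : ∀ n, v (n + W) = v n)
    (K : ℕ) (δ ε : ℝ) (hε : 0 < ε)
    (hmin : ∀ (t : ℝ) (S : Finset ℕ) (φ : ℕ → ℝ) (M : ℝ), (S.card : ℝ) ≤ M →
      (∀ k ∈ Icc 1 K, ‖∑ i ∈ S, ee (k * φ i)‖ ≤ δ * M) → ∑ i ∈ S, gd f t (φ i) ≤ c * S.card + ε * M)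
    (q L : ℕ) (hWq : W ∣ q) (P : ℝ[X]) (r : ℕ)
    (hsm : ∀ k ∈ Icc 1 K, ‖∑ h ∈ (range L).filter (fun h => h % q = r), ee (k * P.eval (h : ℝ))‖ ≤ δ * L) (n : ℕ) :
    ‖∑ h ∈ (range L).filter (fun h => h % q = r), (u (n + h) : ℂ) * f (P.eval (h : ℝ))‖ ≤
      c * ∑ h ∈ (range L).filter (fun h => h % q = r), v (n + h) + ε * L := by
  set S := (range L).filter (fun h => h % q = r) with hS
  have hv0 : ∀ n, 0 ≤ v n := fun n => (abs_nonneg _).trans (huv n)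
  obtain ⟨t, ht⟩ := dir (∑ h ∈ S, (u (n + h) : ℂ) * f (P.eval (h : ℝ)))
  have hcard : (S.card : ℝ) ≤ L := by
    have : S.card ≤ (range L).card := card_filter_le _ _
    rw [card_range] at this
    exact_mod_cast this
  have h1 := hmin t S (fun h => P.eval (h : ℝ)) L hcard hsm
  have h2 : ‖∑ h ∈ S, (u (n + h) : ℂ) * f (P.eval (h : ℝ))‖ = ∑ h ∈ S, u (n + h) * (ee t * f (P.eval (h : ℝ))).re := by
    have e1 := congrArg Complex.re ht
    rw [Complex.ofReal_re] at e1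
    rw [← e1, mul_sum, Complex.re_sum]
    apply sum_congr rfl
    intro h _
    rw [mul_left_comm, Complex.re_ofReal_mul]
  rw [h2]
  have hvr : ∀ h ∈ S, v (n + h) = v (n + r) := by
    intro h hh
    rw [hS, mem_filter] at hh
    exact vper v W hvW q r hWq n h hh.2
  calc ∑ h ∈ S, u (n + h) * (ee t * f (P.eval (h : ℝ))).re ≤ ∑ h ∈ S, v (n + r) * gd f t (P.eval (h : ℝ)) := by
        apply sum_le_sum
        intro h hh
        refine (le_abs_self _).trans ?_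
        rw [abs_mul, ← hvr h hh]
        exact mul_le_mul_of_nonneg_right (huv _) (abs_nonneg _)
    _ = v (n + r) * ∑ h ∈ S, gd f t (P.eval (h : ℝ)) := by rw [mul_sum]
    _ ≤ v (n + r) * (c * S.card + ε * L) := mul_le_mul_of_nonneg_left h1 (hv0 _)
    _ = c * (S.card * v (n + r)) + v (n + r) * (ε * L) := by ring
    _ ≤ c * ∑ h ∈ S, v (n + h) + ε * L := by
        have e1 : ∑ h ∈ S, v (n + h) = S.card * v (n + r) := by
          rw [sum_congr rfl hvr, sum_const, nsmul_eq_mul]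
        rw [e1]
        have e2 : v (n + r) * (ε * L) ≤ 1 * (ε * L) :=
          mul_le_mul_of_nonneg_right (hv1 _) (by positivity)
        linarith

/-- comparison of a polynomial with a polynomial of smaller degree on a block of a progression -/
lemma lower (d : ℕ) (P : ℝ[X]) (hP : P.natDegree ≤ d + 1) (a s : ℝ) :
    ∃ R : ℝ[X], R.natDegree ≤ d ∧ ∀ t : ℝ, R.eval t = P.eval (a + t) -
      P.coeff (d + 1) * (a + t) ^ (d + 1) + P.coeff (d + 1) * (a + s) ^ (d + 1) := by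
  have h1 : (P - C (P.coeff (d + 1)) * X ^ (d + 1)).natDegree ≤ d := by
    rw [natDegree_le_iff_coeff_eq_zero]
    intro N hN
    rw [coeff_sub, coeff_C_mul, coeff_X_pow]
    rcases eq_or_ne N (d + 1) with h | h
    · rw [if_pos h, h, mul_one, sub_self]
    · rw [if_neg h, mul_zero, sub_zero]
      exact coeff_eq_zero_of_natDegree_lt (by omega)
  refine ⟨(P - C (P.coeff (d + 1)) * X ^ (d + 1)).comp (C 1 * X + C a) + C (P.coeff (d + 1) * (a + s) ^ (d + 1)), ?_, ?_⟩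
  · refine (natDegree_add_le _ _).trans (max_le (comp_lin _ d h1 1 a).1 ?_)
    rw [natDegree_C]
    exact Nat.zero_le _
  · intro t
    simp only [eval_add, eval_comp, eval_sub, eval_mul, eval_C, eval_X, eval_pow]
    have : (1 : ℝ) * t + a = a + t := by ring
    rw [this]

/-- on a block of a progression a major leading term is nearly constant -/
lemma near (d : ℕ) (P : ℝ[X]) (hP : P.natDegree ≤ d + 1) (L J l qs q₂ : ℕ) (B κ : ℝ) (hB : 0 ≤ B) (hκ : 0 < κ)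
    (hJ1 : 1 ≤ J) (hJ : B * (d + 1) ≤ κ * J) (hl : J * l ≤ L) (hL : 1 ≤ L) (hq2 : 1 ≤ q₂) (hdv : q₂ ∣ qs) (z : ℤ)
    (hz : |q₂ * P.coeff (d + 1) - z| ≤ B / (L : ℝ) ^ (d + 1)) (j : ℕ) (hj : j < J) (t s : ℕ) (ht : t < l) (hts : t % qs = s)
    (R : ℝ[X]) (hR : ∀ t : ℝ, R.eval t = P.eval (((j * l : ℕ) : ℝ) + t) -
      P.coeff (d + 1) * (((j * l : ℕ) : ℝ) + t) ^ (d + 1) + P.coeff (d + 1) * (((j * l : ℕ) : ℝ) + s) ^ (d + 1)) :
    ∃ z' : ℤ, |P.eval (((j * l + t : ℕ) : ℝ)) - R.eval (t : ℝ) - z'| ≤ κ := by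
  have hst : s ≤ t := by rw [← hts]; exact Nat.mod_le _ _
  have hdiv : (q₂ : ℤ) ∣ ((j * l + t : ℕ) : ℤ) - ((j * l + s : ℕ) : ℤ) := by
    have h1 : ((j * l + t : ℕ) : ℤ) - ((j * l + s : ℕ) : ℤ) = (qs : ℤ) * ((t / qs : ℕ) : ℤ) := by
      have := Nat.div_add_mod t qs
      rw [hts] at this
      have h2 : ((qs * (t / qs) + s : ℕ) : ℤ) = (t : ℤ) := by exact_mod_cast this
      push_cast at h2 ⊢
      linarith
    rw [h1]
    exact Dvd.dvd.mul_right (by exact_mod_cast hdv) _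
  obtain ⟨e, he⟩ := hdiv.trans (sub_dvd_pow_sub_pow ((j * l + t : ℕ) : ℤ) ((j * l + s : ℕ) : ℤ) (d + 1))
  have heR : (((j * l + t : ℕ) : ℝ)) ^ (d + 1) - (((j * l + s : ℕ) : ℝ)) ^ (d + 1) = q₂ * e := by exact_mod_cast he
  have hLr : (0 : ℝ) < L := by exact_mod_cast hL
  have hq20 : (1 : ℝ) ≤ q₂ := by exact_mod_cast hq2
  have hjl : j * l + t ≤ L := by
    have h1 : (j + 1) * l ≤ J * l := Nat.mul_le_mul_right _ (by omega)
    have h2 : (j + 1) * l = j * l + l := by ring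
    omega
  have hAB : (((j * l + s : ℕ) : ℝ)) ≤ ((j * l + t : ℕ) : ℝ) := by exact_mod_cast (by omega : j * l + s ≤ j * l + t)
  have hbd : (((j * l + t : ℕ) : ℝ)) ^ (d + 1) - (((j * l + s : ℕ) : ℝ)) ^ (d + 1) ≤ (d + 1) * l * (L : ℝ) ^ d := by
    refine (pow_diff _ _ (Nat.cast_nonneg _) hAB d).trans ?_
    have h1 : ((j * l + t : ℕ) : ℝ) - ((j * l + s : ℕ) : ℝ) ≤ l := by
      have : (t : ℝ) ≤ l := by exact_mod_cast ht.le
      have h0 : (0 : ℝ) ≤ s := Nat.cast_nonneg _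
      push_cast
      linarith
    have h2 : (((j * l + t : ℕ) : ℝ)) ^ d ≤ (L : ℝ) ^ d := pow_le_pow_left₀ (Nat.cast_nonneg _) (by exact_mod_cast hjl) _
    have h3 : 0 ≤ ((j * l + t : ℕ) : ℝ) - ((j * l + s : ℕ) : ℝ) := by linarith
    exact mul_le_mul (mul_le_mul_of_nonneg_left h1 (by positivity)) h2 (by positivity) (by positivity)
  have hpos : 0 ≤ (((j * l + t : ℕ) : ℝ)) ^ (d + 1) - (((j * l + s : ℕ) : ℝ)) ^ (d + 1) := by
    have := pow_le_pow_left₀ (Nat.cast_nonneg _) hAB (d + 1)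
    linarith
  have he1 : abs ((q₂ : ℝ) * (e : ℝ)) ≤ (d + 1) * l * (L : ℝ) ^ d := by
    rw [← heR, abs_of_nonneg hpos]
    exact hbd
  have he0 : abs (e : ℝ) ≤ (d + 1) * l * (L : ℝ) ^ d := by
    rw [abs_mul, Nat.abs_cast] at he1
    have h00 := abs_nonneg (e : ℝ)
    nlinarith
  refine ⟨z * e, ?_⟩
  have h5 : P.eval (((j * l + t : ℕ) : ℝ)) - R.eval (t : ℝ) - ((z * e : ℤ) : ℝ) = (q₂ * P.coeff (d + 1) - z) * e := by
    rw [hR]
    have h6 : ((j * l + t : ℕ) : ℝ) = ((j * l : ℕ) : ℝ) + t := by push_cast; ring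
    have h7 : ((j * l + s : ℕ) : ℝ) = ((j * l : ℕ) : ℝ) + s := by push_cast; ring
    rw [h6, h7] at heR
    rw [h6, Int.cast_mul]
    linear_combination (P.coeff (d + 1)) * heR
  rw [h5, abs_mul]
  calc |q₂ * P.coeff (d + 1) - z| * |(e : ℝ)| ≤ (B / (L : ℝ) ^ (d + 1)) * ((d + 1) * l * (L : ℝ) ^ d) :=
        mul_le_mul hz he0 (abs_nonneg _) (by positivity)
    _ = B * (d + 1) * l / L := by
        rw [pow_succ]
        field_simp
    _ ≤ κ * J * l / L := by gcongr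
    _ ≤ κ := by
        rw [div_le_iff₀ hLr, mul_assoc]
        apply mul_le_mul_of_nonneg_left _ hκ.le
        exact_mod_cast hl

end

end Pool.Agent.Q42.PP
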