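import Pool.Agent.Q42.PP.Ind

/-!
# From exceptional windows to averages of suprema
-/

set_option autoImplicit false

namespace Pool.Agent.Q42.PP

open Finset Polynomial
open Pool.Agent.Helper602.MK (ee)
open Pool.Agent.Helper602.MK.N_J5b (ee_eq ee_add ee_zero ee_conj norm_ee ee_int ee_nat_mul)

/-- the supremum over all polynomials of degree at most `d` -/
noncomputable def lsup (u : ℕ → ℝ) (f : ℝ → ℂ) (d H n : ℕ) : ℝ :=
  ⨆ P : {P : ℝ[X] // P.natDegree ≤ d}, ‖∑ h ∈ Icc 1 H, (u (n + h) : ℂ) * f (P.1.eval (h : ℝ))‖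

lemma sum_icc {E : Type*} [AddCommMonoid E] (b : ℕ → E) (H : ℕ) : ∑ h ∈ Icc 1 H, b h = ∑ h ∈ range H, b (h + 1) := by
  have e0 : Icc 1 H = Ico 1 (H + 1) := by
    ext x; simp only [mem_Icc, mem_Ico]; omega
  rw [e0, sum_Ico_eq_sum_range, Nat.add_sub_cancel]
  apply sum_congr rfl
  intro h _
  rw [add_comm]

lemma shift_diff (b : ℕ → ℂ) (F : ℝ) (hb : ∀ h, ‖b h‖ ≤ F) (H l : ℕ) :
    ‖∑ h ∈ range H, b h - ∑ h ∈ range H, b (h + l)‖ ≤ 2 * l * F := by
  have h1 : ∑ h ∈ range (H + l), b h = ∑ h ∈ range H, b h + ∑ i ∈ range l, b (H + i) := sum_range_add _ _ _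
  have h2 : ∑ h ∈ range (l + H), b h = ∑ i ∈ range l, b i + ∑ h ∈ range H, b (l + h) := sum_range_add _ _ _
  have h3 : ∑ h ∈ range H, b (h + l) = ∑ h ∈ range H, b (l + h) := sum_congr rfl fun h _ => by rw [add_comm]
  rw [add_comm l H] at h2
  have h4 : ∑ h ∈ range H, b h - ∑ h ∈ range H, b (h + l) = ∑ i ∈ range l, b i - ∑ i ∈ range l, b (H + i) := by
    rw [h3]
    linear_combination h2 - h1
  rw [h4]
  have h5 : ∀ c : ℕ → ℕ, ‖∑ i ∈ range l, b (c i)‖ ≤ l * F := by
    intro c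
    refine (norm_sum_le _ _).trans ((sum_le_sum fun i _ => hb (c i)).trans (le_of_eq ?_))
    rw [sum_const, card_range, nsmul_eq_mul]
  refine (norm_sub_le _ _).trans ?_
  have := h5 (fun i => i)
  have := h5 (fun i => H + i)
  linarith

lemma vblock (v : ℕ → ℝ) (W : ℕ) (hvW : ∀ n, v (n + W) = v n) (a : ℕ) :
    ∑ t ∈ range W, v (a + t) = ∑ t ∈ range W, v t := by
  induction a with
  | zero => simp
  | succ a ih =>
    rw [← ih]
    have h1 : ∑ t ∈ range (W + 1), v (a + t) = ∑ t ∈ range W, v (a + t) + v (a + W) := sum_range_succ _ _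
    have h2 : ∑ t ∈ range (W + 1), v (a + t) = ∑ t ∈ range W, v (a + (t + 1)) + v (a + 0) := sum_range_succ' _ _
    rw [hvW] at h1
    rw [add_zero] at h2
    have h3 : ∑ t ∈ range W, v (a + 1 + t) = ∑ t ∈ range W, v (a + (t + 1)) :=
      sum_congr rfl fun t _ => by congr 1; omega
    rw [h3]
    linarith

lemma vwin (v : ℕ → ℝ) (W : ℕ) (hW : 1 ≤ W) (hv0 : ∀ n, 0 ≤ v n) (hv1 : ∀ n, v n ≤ 1) (hvW : ∀ n, v (n + W) = v n) (ρ : ℝ)
    (hρ : ∑ r ∈ range W, v r ≤ ρ * W) (a H : ℕ) : ∑ m ∈ range H, v (a + m) ≤ ρ * H + W := by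
  have hW0 : (0 : ℝ) < W := by exact_mod_cast hW
  have hρ0 : 0 ≤ ρ := by
    have := (sum_nonneg fun r (_ : r ∈ range W) => hv0 r).trans hρ
    by_contra h
    rw [not_le] at h
    nlinarith
  have hH := Nat.div_add_mod H W
  have hmod := Nat.mod_lt H hW
  have h1 : ∑ m ∈ range H, v (a + m) = ∑ m ∈ range (H / W * W), v (a + m) + ∑ m ∈ range (H % W), v (a + (H / W * W + m)) := by
    have e : H = H / W * W + H % W := by rw [mul_comm]; exact hH.symm
    conv_lhs => rw [e]
    rw [sum_range_add]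
  rw [h1, sum_blocks]
  have h2 : ∀ j ∈ range (H / W), ∑ t ∈ range W, v (a + (j * W + t)) ≤ ρ * W := by
    intro j _
    have : ∑ t ∈ range W, v (a + (j * W + t)) = ∑ t ∈ range W, v (a + j * W + t) :=
      sum_congr rfl fun t _ => by rw [add_assoc]
    rw [this, vblock v W hvW]
    exact hρ
  have h3 := sum_le_sum h2
  rw [sum_const, card_range, nsmul_eq_mul] at h3
  have h4 : ∑ m ∈ range (H % W), v (a + (H / W * W + m)) ≤ W := by
    refine (sum_le_sum fun m _ => hv1 _).trans ?_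
    rw [sum_const, card_range, nsmul_eq_mul, mul_one]
    exact_mod_cast hmod.le
  have h5 : ((H / W : ℕ) : ℝ) * (ρ * W) ≤ ρ * H := by
    have : ((H / W * W : ℕ) : ℝ) ≤ H := by exact_mod_cast Nat.div_mul_le_self H W
    push_cast at this
    nlinarith
  linarith

section

variable (u v : ℕ → ℝ) (f : ℝ → ℂ) (F c : ℝ) (W : ℕ)

open scoped Classical in
/-- pointwise bound for one window -/
lemma point (huv : ∀ n, |u n| ≤ v n) (hv1 : ∀ n, v n ≤ 1) (hvW : ∀ n, v (n + W) = v n) (hW : 1 ≤ W)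
    (hF : ∀ x, ‖f x‖ ≤ F) (hc0 : 0 ≤ c) (ρ : ℝ) (hρ : ∑ r ∈ range W, v r ≤ ρ * W) (d L : ℕ) (hL : 1 ≤ L) (ε : ℝ) (hε : 0 < ε)
    (H n : ℕ) (P : ℝ[X]) (hP : P.natDegree ≤ d) :
    ‖∑ h ∈ Icc 1 H, (u (n + h) : ℂ) * f (P.eval (h : ℝ))‖ ≤
      (c * ρ + W * ε) * H + F * ((Ioc n (n + H)).filter (Exc u v f c d W L ε)).card + (c * W + 2 * L * F) := by
  have hF0 : 0 ≤ F := (norm_nonneg _).trans (hF 0)
  have hv0 : ∀ n, 0 ≤ v n := fun n => (abs_nonneg _).trans (huv n)
  have hL0 : (0 : ℝ) < L := by exact_mod_cast hL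
  set b : ℕ → ℂ := fun h => (u (n + (h + 1)) : ℂ) * f (P.eval ((h + 1 : ℕ) : ℝ)) with hb
  have hbF : ∀ h, ‖b h‖ ≤ F := by
    intro h
    rw [hb]
    simp only
    rw [norm_mul, Complex.norm_real, Real.norm_eq_abs]
    calc _ ≤ 1 * F := mul_le_mul ((huv _).trans (hv1 _)) (hF _) (norm_nonneg _) zero_le_one
      _ = F := one_mul _
  rw [sum_icc]
  -- averaging over shifts
  have h1 : ‖(L : ℂ) * ∑ h ∈ range H, b h - ∑ m ∈ range H, ∑ l ∈ range L, b (m + l)‖ ≤ L * (2 * L * F) := by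
    rw [sum_comm]
    have e : (L : ℂ) * ∑ h ∈ range H, b h = ∑ l ∈ range L, ∑ h ∈ range H, b h := by
      rw [sum_const, card_range, nsmul_eq_mul]
    rw [e, ← sum_sub_distrib]
    refine (norm_sum_le _ _).trans ?_
    calc _ ≤ ∑ l ∈ range L, 2 * (L : ℝ) * F := by
          apply sum_le_sum
          intro l hl
          rw [mem_range] at hl
          refine (shift_diff b F hbF H l).trans ?_
          have : (l : ℝ) ≤ L := by exact_mod_cast hl.le
          gcongr
      _ = _ := by rw [sum_const, card_range, nsmul_eq_mul]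
  -- one window
  have h2 : ∀ m ∈ range H, ‖∑ l ∈ range L, b (m + l)‖ ≤ c * ∑ l ∈ range L, v (n + 1 + m + l) + W * ε * L +
      (if Exc u v f c d W L ε (n + 1 + m) then F * L else 0) := by
    intro m _
    by_cases hE : Exc u v f c d W L ε (n + 1 + m)
    · rw [if_pos hE]
      have e1 : ‖∑ l ∈ range L, b (m + l)‖ ≤ F * L := by
        refine (norm_sum_le _ _).trans ((sum_le_sum fun l _ => hbF _).trans (le_of_eq ?_))
        rw [sum_const, card_range, nsmul_eq_mul, mul_comm]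
      have e2 : 0 ≤ c * ∑ l ∈ range L, v (n + 1 + m + l) := mul_nonneg hc0 (sum_nonneg fun _ _ => hv0 _)
      have e3 : 0 ≤ W * ε * L := by positivity
      linarith
    · rw [if_neg hE, add_zero]
      set R : ℝ[X] := P.comp (C 1 * X + C ((m + 1 : ℕ) : ℝ)) with hR
      have hRd : R.natDegree ≤ d := (comp_lin P d hP 1 _).1
      have hRe : ∀ l : ℕ, R.eval (l : ℝ) = P.eval ((m + l + 1 : ℕ) : ℝ) := by
        intro l
        rw [hR, eval_comp]
        congr 1
        simp only [eval_add, eval_mul, eval_C, eval_X]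
        push_cast
        ring
      have e1 : ∑ l ∈ range L, b (m + l) = ∑ l ∈ range L, (u (n + 1 + m + l) : ℂ) * f (R.eval (l : ℝ)) := by
        apply sum_congr rfl
        intro l _
        rw [hRe, hb]
        simp only
        congr 3
        omega
      have e2 : ∀ r ∈ range W, ‖∑ l ∈ (range L).filter (fun l => l % W = r), (u (n + 1 + m + l) : ℂ) * f (R.eval (l : ℝ))‖ ≤
          c * ∑ l ∈ (range L).filter (fun l => l % W = r), v (n + 1 + m + l) + ε * L := by
        intro r hr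
        by_contra hno
        rw [not_le] at hno
        exact hE ⟨R, hRd, r, mem_range.1 hr, hno⟩
      rw [e1, sum_res _ L W hW]
      refine (norm_sum_le _ _).trans ((sum_le_sum e2).trans (le_of_eq ?_))
      rw [sum_add_distrib, ← mul_sum, ← sum_res _ L W hW, sum_const, card_range, nsmul_eq_mul]
      ring
  have h3 : ‖∑ m ∈ range H, ∑ l ∈ range L, b (m + l)‖ ≤
      c * (L * (ρ * H + W)) + H * (W * ε * L) + ((Ioc n (n + H)).filter (Exc u v f c d W L ε)).card * (F * L) := by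
    refine (norm_sum_le _ _).trans ((sum_le_sum h2).trans ?_)
    rw [sum_add_distrib, sum_add_distrib, ← mul_sum, sum_const, card_range, nsmul_eq_mul]
    have e1 : ∑ m ∈ range H, ∑ l ∈ range L, v (n + 1 + m + l) ≤ L * (ρ * H + W) := by
      rw [sum_comm]
      calc _ ≤ ∑ l ∈ range L, (ρ * H + W) := by
            apply sum_le_sum
            intro l _
            have := vwin v W hW hv0 hv1 hvW ρ hρ (n + 1 + l) H
            refine le_trans (le_of_eq ?_) this
            apply sum_congr rfl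
            intro m _
            congr 1
            omega
        _ = _ := by rw [sum_const, card_range, nsmul_eq_mul]
    have e2 : ∑ m ∈ range H, (if Exc u v f c d W L ε (n + 1 + m) then F * L else 0) =
        ((Ioc n (n + H)).filter (Exc u v f c d W L ε)).card * (F * L) := by
      rw [← nsmul_eq_mul, ← sum_const, sum_filter]
      have e0 : Ioc n (n + H) = Ico (n + 1) (n + 1 + H) := by
        ext x; simp only [mem_Ioc, mem_Ico]; omega
      rw [e0, sum_Ico_eq_sum_range, Nat.add_sub_cancel_left]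
    rw [e2]
    have := mul_le_mul_of_nonneg_left e1 hc0
    linarith
  have h4 : (L : ℝ) * ‖∑ h ∈ range H, b h‖ ≤ L * ((c * ρ + W * ε) * H +
      F * ((Ioc n (n + H)).filter (Exc u v f c d W L ε)).card + (c * W + 2 * L * F)) := by
    have e1 : (L : ℝ) * ‖∑ h ∈ range H, b h‖ = ‖(L : ℂ) * ∑ h ∈ range H, b h‖ := by
      rw [norm_mul, Complex.norm_natCast]
    rw [e1]
    have e2 := norm_sub_norm_le ((L : ℂ) * ∑ h ∈ range H, b h) (∑ m ∈ range H, ∑ l ∈ range L, b (m + l))
    linarith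
  exact le_of_mul_le_mul_left h4 hL0

open scoped Classical in
/-- averages of the suprema -/
theorem average (huv : ∀ n, |u n| ≤ v n) (hv1 : ∀ n, v n ≤ 1) (hvW : ∀ n, v (n + W) = v n) (hW : 1 ≤ W)
    (hF : ∀ x, ‖f x‖ ≤ F) (hc0 : 0 ≤ c) (ρ : ℝ) (hρ : ∑ r ∈ range W, v r ≤ ρ * W) (d : ℕ) (hT : Tst u v f c W d)
    (ε : ℝ) (hε : 0 < ε) : ∃ H₀ : ℕ, ∀ H : ℕ, H₀ ≤ H → ∀ N : ℕ,
      ∑ n ∈ Icc 1 N, lsup u f d H n ≤ (c * ρ + ε) * H * N := by
  have hF0 : 0 ≤ F := (norm_nonneg _).trans (hF 0)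
  have hW0 : (0 : ℝ) < W := by exact_mod_cast hW
  set ε₁ : ℝ := ε / (2 * (W + 2 * F)) with hε₁
  have hε₁0 : 0 < ε₁ := by positivity
  obtain ⟨L₀, hL₀⟩ := hT W hW dvd_rfl ε₁ hε₁0
  obtain ⟨N₀, hN₀⟩ := hL₀ (L₀ + 1) (by omega)
  obtain ⟨L, hLdef⟩ : ∃ L : ℕ, L = L₀ + 1 := ⟨_, rfl⟩
  rw [← hLdef] at hN₀
  have hL1 : 1 ≤ L := by omega
  obtain ⟨H₁, hH₁⟩ := exists_nat_ge (2 * (c * W + 2 * L * F) / ε)
  refine ⟨N₀ + H₁ + 1, fun H hH N => ?_⟩
  have hH0 : (0 : ℝ) < H := by exact_mod_cast (by omega : 0 < H)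
  have hconst : c * W + 2 * L * F ≤ ε / 2 * H := by
    have : 2 * (c * W + 2 * L * F) / ε ≤ H := hH₁.trans (by exact_mod_cast (by omega : H₁ ≤ H))
    rw [div_le_iff₀ hε] at this
    linarith
  have hpt : ∀ n, lsup u f d H n ≤ (c * ρ + W * ε₁) * H + F * ((Ioc n (n + H)).filter (Exc u v f c d W L ε₁)).card +
      (c * W + 2 * L * F) := by
    intro n
    unfold lsup
    haveI : Nonempty {P : ℝ[X] // P.natDegree ≤ d} := ⟨⟨0, by simp⟩⟩
    exact ciSup_le fun P => point u v f F c W huv hv1 hvW hW hF hc0 ρ hρ d L hL1 ε₁ hε₁0 H n P.1 P.2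
  set Bd : Finset ℕ := (Icc 1 (N + H)).filter (Exc u v f c d W L ε₁) with hBd
  have hBdc : (Bd.card : ℝ) ≤ ε₁ * (N + H) := by
    have := hN₀ (N + H) (by omega)
    push_cast at this
    exact this
  have hcount : ∑ n ∈ Icc 1 N, (((Ioc n (n + H)).filter (Exc u v f c d W L ε₁)).card : ℝ) ≤ 2 * ε₁ * H * N := by
    have hA : ∑ n ∈ Icc 1 N, (((Ioc n (n + H)).filter (Exc u v f c d W L ε₁)).card : ℝ) ≤ N * Bd.card := by
      calc _ ≤ ∑ n ∈ Icc 1 N, (Bd.card : ℝ) := by
            apply sum_le_sum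
            intro n hn
            rw [mem_Icc] at hn
            have : (Ioc n (n + H)).filter (Exc u v f c d W L ε₁) ⊆ Bd := by
              intro m hm
              rw [mem_filter, mem_Ioc] at hm
              rw [hBd, mem_filter, mem_Icc]
              exact ⟨⟨by omega, by omega⟩, hm.2⟩
            exact_mod_cast card_le_card this
        _ = _ := by rw [sum_const, Nat.card_Icc, Nat.add_sub_cancel, nsmul_eq_mul]
    have hB : ∑ n ∈ Icc 1 N, (((Ioc n (n + H)).filter (Exc u v f c d W L ε₁)).card : ℝ) ≤ H * Bd.card := by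
      have e1 : ∀ n ∈ Icc 1 N, (((Ioc n (n + H)).filter (Exc u v f c d W L ε₁)).card : ℝ) =
          ∑ m ∈ Bd, if n < m ∧ m ≤ n + H then (1 : ℝ) else 0 := by
        intro n hn
        rw [mem_Icc] at hn
        rw [← sum_filter, sum_const, nsmul_eq_mul, mul_one]
        congr 2
        ext m
        rw [hBd]
        simp only [mem_filter, mem_Ioc, mem_Icc]
        constructor
        · rintro ⟨⟨h1, h2⟩, h3⟩
          exact ⟨⟨⟨by omega, by omega⟩, h3⟩, h1, h2⟩
        · rintro ⟨⟨_, h3⟩, h1, h2⟩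
          exact ⟨⟨h1, h2⟩, h3⟩
      rw [sum_congr rfl e1, sum_comm]
      calc _ ≤ ∑ m ∈ Bd, (H : ℝ) := by
            apply sum_le_sum
            intro m _
            rw [← sum_filter, sum_const, nsmul_eq_mul, mul_one]
            have : (Icc 1 N).filter (fun n => n < m ∧ m ≤ n + H) ⊆ Ico (m - H) m := by
              intro n hn
              rw [mem_filter] at hn
              rw [mem_Ico]
              omega
            have h2 := card_le_card this
            rw [Nat.card_Ico] at h2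
            exact_mod_cast h2.trans (by omega)
        _ = _ := by rw [sum_const, nsmul_eq_mul, mul_comm]
    have hNn : (0 : ℝ) ≤ N := Nat.cast_nonneg _
    rcases le_total N H with h | h
    · have h' : (N : ℝ) ≤ H := by exact_mod_cast h
      refine hA.trans ?_
      calc (N : ℝ) * Bd.card ≤ N * (ε₁ * (N + H)) := mul_le_mul_of_nonneg_left hBdc hNn
        _ ≤ N * (ε₁ * (H + H)) := by gcongr
        _ = _ := by ring
    · have h' : (H : ℝ) ≤ N := by exact_mod_cast h
      refine hB.trans ?_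
      calc (H : ℝ) * Bd.card ≤ H * (ε₁ * (N + H)) := mul_le_mul_of_nonneg_left hBdc hH0.le
        _ ≤ H * (ε₁ * (N + N)) := by gcongr
        _ = _ := by ring
  refine (sum_le_sum fun n _ => hpt n).trans ?_
  rw [sum_add_distrib, sum_add_distrib, sum_const, sum_const, Nat.card_Icc, Nat.add_sub_cancel, nsmul_eq_mul, nsmul_eq_mul,
    ← mul_sum]
  have h5 := mul_le_mul_of_nonneg_left hcount hF0
  have h6 : (N : ℝ) * (c * W + 2 * L * F) ≤ N * (ε / 2 * H) := mul_le_mul_of_nonneg_left hconst (Nat.cast_nonneg _)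
  have h7 : (W + 2 * F) * ε₁ = ε / 2 := by
    rw [hε₁]
    field_simp
  have h8 : (N : ℝ) * ((c * ρ + W * ε₁) * H) + F * (2 * ε₁ * H * N) + N * (ε / 2 * H) = (c * ρ + ((W + 2 * F) * ε₁) + ε / 2) * H * N := by
    ring
  rw [h7] at h8
  have h9 : (c * ρ + ε / 2 + ε / 2) * H * N = (c * ρ + ε) * H * N := by ring
  linarith

end

/-- logarithmic averages -/
lemma log_average (S : ℕ → ℝ) (κ : ℝ) (hκ : 0 ≤ κ) (h : ∀ N : ℕ, ∑ n ∈ Icc 1 N, S n ≤ κ * N) (N : ℕ) (hN : 1 ≤ N) :
    ∑ n ∈ Icc 1 N, S n / n ≤ κ * (1 + Real.log N) := by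
  have key : ∀ N : ℕ, 1 ≤ N → ∑ n ∈ Icc 1 N, S n / n ≤ (∑ n ∈ Icc 1 N, S n) / N + κ * ((harmonic N : ℝ) - 1) := by
    intro N hN
    induction N, hN using Nat.le_induction with
    | base => simp [harmonic]
    | succ N hN ih =>
      have hN0 : (0 : ℝ) < N := by exact_mod_cast hN
      rw [sum_Icc_succ_top (by omega), sum_Icc_succ_top (by omega), harmonic_succ]
      have h1 := h N
      set A := ∑ n ∈ Icc 1 N, S n with hA
      push_cast
      have h2 : A / N = A / (N + 1) + A / (N * (N + 1)) := by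
        field_simp
      have h3 : A / (N * (N + 1)) ≤ κ * (1 / (N + 1)) := by
        rw [div_le_iff₀ (by positivity)]
        calc A ≤ κ * N := h1
          _ = κ * (1 / (N + 1)) * (N * (N + 1)) := by
              field_simp
      have h4 : (A + S (N + 1)) / (N + 1) = A / (N + 1) + S (N + 1) / (N + 1) := add_div _ _ _
      rw [h4]
      rw [inv_eq_one_div]
      linarith
  refine (key N hN).trans ?_
  have hN0 : (0 : ℝ) < N := by exact_mod_cast hN
  have h1 : (∑ n ∈ Icc 1 N, S n) / N ≤ κ := by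
    rw [div_le_iff₀ hN0]
    exact h N
  have h2 := harmonic_le_one_add_log N
  nlinarith

end Pool.Agent.Q42.PP
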