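import Pool.Agent.Q42.PP.Dic

/-!
# Uniformity in the direction, and uniform continuity
-/

set_option autoImplicit false

namespace Pool.Agent.Q42.PP

open Finset Polynomial
open Pool.Agent.Helper602.MK (ee)
open Pool.Agent.Helper602.MK.N_J5b (ee_eq ee_add ee_zero ee_conj norm_ee ee_int ee_nat_mul)

/-- the size of the real part in the direction `t` -/
noncomputable def gd (f : ℝ → ℂ) (t : ℝ) (x : ℝ) : ℝ := |(ee t * f x).re|

lemma ee_cont : Continuous ee := by
  unfold ee
  fun_prop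

lemma ee_lip (x y : ℝ) : ‖ee x - ee y‖ ≤ 7 * |x - y| := by
  have h1 : ee x - ee y = ee y * (ee (x - y) - 1) := by
    rw [mul_sub, mul_one, ← ee_add]
    congr 2
    ring
  rw [h1, norm_mul, norm_ee, one_mul, ee_eq]
  have h2 := Real.norm_exp_I_mul_ofReal_sub_one_le (x := 2 * Real.pi * (x - y))
  have h3 : Complex.exp (((2 * Real.pi * (x - y) : ℝ) : ℂ) * Complex.I) =
      Complex.exp (Complex.I * ((2 * Real.pi * (x - y) : ℝ) : ℂ)) := by
    rw [mul_comm]
  rw [h3]
  refine h2.trans ?_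
  rw [Real.norm_eq_abs, abs_mul, abs_mul, abs_of_pos (by norm_num : (0 : ℝ) < 2), abs_of_pos Real.pi_pos]
  have := Real.pi_lt_d2
  have := abs_nonneg (x - y)
  nlinarith

lemma gd_cont (f : ℝ → ℂ) (hf : Continuous f) (t : ℝ) : Continuous (gd f t) := by
  unfold gd
  exact (Complex.continuous_re.comp (continuous_const.mul hf)).abs

lemma gd_per (f : ℝ → ℂ) (hp : Function.Periodic f 1) (t : ℝ) : Function.Periodic (gd f t) 1 := by
  intro x
  unfold gd
  rw [hp x]

lemma gd_sub (f : ℝ → ℂ) (F : ℝ) (hF : ∀ x, ‖f x‖ ≤ F) (t t' x : ℝ) : gd f t x ≤ gd f t' x + 7 * |t - t'| * F := by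
  unfold gd
  have h1 : (ee t * f x).re = (ee t' * f x).re + ((ee t - ee t') * f x).re := by
    rw [← Complex.add_re]
    congr 1
    ring
  rw [h1]
  refine (abs_add_le _ _).trans ?_
  have h2 : |((ee t - ee t') * f x).re| ≤ 7 * |t - t'| * F := by
    refine (Complex.abs_re_le_norm _).trans ?_
    rw [norm_mul]
    exact mul_le_mul (ee_lip t t') (hF x) (norm_nonneg _) (by positivity)
  linarith

lemma gd_fract (f : ℝ → ℂ) (t x : ℝ) : gd f (Int.fract t) x = gd f t x := by
  unfold gd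
  have : ee (Int.fract t) = ee t := by
    have h1 : t = Int.fract t + (⌊t⌋ : ℤ) := (Int.fract_add_floor t).symm
    conv_rhs => rw [h1, ee_add, ee_int, mul_one]
  rw [this]

/-- the Weyl criterion uniformly in the direction -/
theorem minor (f : ℝ → ℂ) (hf : Continuous f) (hp : Function.Periodic f 1) (F : ℝ) (hF : ∀ x, ‖f x‖ ≤ F)
    (c : ℝ) (hc : ∀ t, ∫ x in (0 : ℝ)..1, gd f t x ≤ c) (ε : ℝ) (hε : 0 < ε) :
    ∃ K : ℕ, ∃ δ : ℝ, 0 < δ ∧ ∀ (t : ℝ) (S : Finset ℕ) (φ : ℕ → ℝ) (M : ℝ), (S.card : ℝ) ≤ M →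
      (∀ k ∈ Icc 1 K, ‖∑ i ∈ S, ee (k * φ i)‖ ≤ δ * M) →
      ∑ i ∈ S, gd f t (φ i) ≤ c * S.card + ε * M := by
  have hF0 : 0 ≤ F := (norm_nonneg _).trans (hF 0)
  obtain ⟨m, hm⟩ := exists_nat_gt (14 * F / ε)
  have hm0 : (0 : ℝ) < m := lt_of_le_of_lt (by positivity) hm
  have hm1 : 0 < m := by exact_mod_cast hm0
  choose K δ hδ h using fun i : ℕ => equi (gd f (i / m)) (gd_cont f hf _) (gd_per f hp _) (ε / 2) (by positivity)
  have hpos : 0 < 1 + ∑ i ∈ range m, 1 / δ i := by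
    have : 0 ≤ ∑ i ∈ range m, 1 / δ i := sum_nonneg fun i _ => (by have := hδ i; positivity)
    linarith
  refine ⟨∑ i ∈ range m, K i, 1 / (1 + ∑ i ∈ range m, 1 / δ i), by positivity, fun t S φ M hS hk => ?_⟩
  have hM : 0 ≤ M := (Nat.cast_nonneg _).trans hS
  set i : ℕ := ⌊Int.fract t * m⌋₊ with hi
  have hfr0 := Int.fract_nonneg t
  have hfr1 := Int.fract_lt_one t
  have him : i < m := by
    rw [hi, Nat.floor_lt (by positivity)]
    calc Int.fract t * m < 1 * m := by gcongr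
      _ = m := one_mul _
  have h1 := h i S φ M hS (fun k hk' => (hk k (by
    rw [mem_Icc] at hk' ⊢
    exact ⟨hk'.1, hk'.2.trans (single_le_sum (f := K) (fun _ _ => Nat.zero_le _) (mem_range.2 him))⟩)).trans (by
      apply mul_le_mul_of_nonneg_right _ hM
      rw [div_le_iff₀ hpos]
      have h2 : 1 / δ i ≤ ∑ i ∈ range m, 1 / δ i :=
        single_le_sum (f := fun i => 1 / δ i) (fun j _ => (by have := hδ j; positivity)) (mem_range.2 him)
      have h3 : δ i * (1 / δ i) = 1 := by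
        have := hδ i
        field_simp
      have := hδ i
      nlinarith))
  have h2 : |Int.fract t - (i : ℝ) / m| ≤ 1 / m := by
    have a1 : (i : ℝ) ≤ Int.fract t * m := Nat.floor_le (by positivity)
    have a2 : Int.fract t * m < i + 1 := Nat.lt_floor_add_one _
    rw [abs_le]
    constructor
    · have : (i : ℝ) / m ≤ Int.fract t := by rw [div_le_iff₀ hm0]; exact a1
      have h3 : 0 ≤ 1 / (m : ℝ) := by positivity
      linarith
    · have : Int.fract t ≤ (i + 1 : ℝ) / m := by rw [le_div_iff₀ hm0]; exact a2.le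
      rw [add_div] at this
      linarith
  have h3 : ∑ j ∈ S, gd f t (φ j) ≤ ∑ j ∈ S, (gd f (i / m) (φ j) + ε / 2) := by
    apply sum_le_sum
    intro j _
    rw [← gd_fract]
    refine (gd_sub f F hF _ (i / m) (φ j)).trans ?_
    have h4 : 7 * |Int.fract t - (i : ℝ) / m| * F ≤ ε / 2 := by
      calc 7 * |Int.fract t - (i : ℝ) / m| * F ≤ 7 * (1 / m) * F := by gcongr
        _ = (14 * F / m) / 2 := by ring
        _ ≤ ε / 2 := by
            apply div_le_div_of_nonneg_right _ (by norm_num)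
            rw [div_le_iff₀ hm0]
            rw [div_lt_iff₀ hε] at hm
            nlinarith
    linarith
  refine h3.trans ?_
  rw [sum_add_distrib, sum_const, nsmul_eq_mul]
  have h4 := (abs_le.1 h1).2
  have h5 : (S.card : ℝ) * ∫ x in (0 : ℝ)..1, gd f (i / m) x ≤ c * S.card := by
    rw [mul_comm]
    exact mul_le_mul_of_nonneg_right (hc _) (Nat.cast_nonneg _)
  have h6 : (S.card : ℝ) * (ε / 2) ≤ M * (ε / 2) := by gcongr
  linarith

/-- uniform continuity -/
lemma unif_cont (f : ℝ → ℂ) (hf : Continuous f) (hp : Function.Periodic f 1) (ε : ℝ) (hε : 0 < ε) :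
    ∃ κ : ℝ, 0 < κ ∧ ∀ (x y : ℝ) (z : ℤ), |x - y - z| ≤ κ → ‖f x - f y‖ ≤ ε := by
  have h1 : UniformContinuousOn f (Set.Icc (-1) 2) :=
    isCompact_Icc.uniformContinuousOn_of_continuous hf.continuousOn
  obtain ⟨κ, hκ, h⟩ := Metric.uniformContinuousOn_iff.1 h1 ε hε
  refine ⟨min (κ / 2) 1, by positivity, fun x y z hxy => ?_⟩
  have hz : ∀ (w : ℤ) (x : ℝ), f (x + w) = f x := by
    intro w x
    have := hp.int_mul w x
    simpa using this
  have e1 : f x = f (Int.fract x) := by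
    rw [← hz ⌊x⌋ (Int.fract x), Int.fract_add_floor]
  have e2 : f y = f (y + z - ⌊x⌋) := by
    have := hz (z - ⌊x⌋) y
    rw [← this]
    congr 1
    push_cast
    ring
  rw [e1, e2]
  have hfr0 := Int.fract_nonneg x
  have hfr1 := Int.fract_lt_one x
  have h3 : |Int.fract x - (y + z - ⌊x⌋)| ≤ min (κ / 2) 1 := by
    refine le_trans (le_of_eq ?_) hxy
    congr 1
    unfold Int.fract
    ring
  have h4 := h3.trans (min_le_right _ _)
  have h5 := h3.trans (min_le_left _ _)
  rw [abs_le] at h4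
  have := h (Int.fract x) ⟨by linarith, by linarith⟩ (y + z - ⌊x⌋) ⟨by linarith, by linarith⟩ (by
    rw [Real.dist_eq]
    linarith)
  rw [dist_eq_norm] at this
  exact this.le

/-- a direction in which a sum is real and positive -/
lemma dir (w : ℂ) : ∃ t : ℝ, ee t * w = (‖w‖ : ℂ) := by
  rcases eq_or_ne w 0 with h | h
  · exact ⟨0, by simp [h]⟩
  refine ⟨-(Complex.arg w / (2 * Real.pi)), ?_⟩
  have h1 := Complex.norm_mul_exp_arg_mul_I w
  rw [ee_eq]
  have h2 : ((2 * Real.pi * -(Complex.arg w / (2 * Real.pi)) : ℝ) : ℂ) = -(Complex.arg w : ℂ) := by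
    have : (2 * Real.pi * -(Complex.arg w / (2 * Real.pi)) : ℝ) = - Complex.arg w := by
      have := Real.pi_pos
      field_simp
    rw [this]
    push_cast
    rfl
  rw [h2]
  nth_rw 2 [← h1]
  rw [mul_left_comm, ← Complex.exp_add]
  simp

end Pool.Agent.Q42.PP
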